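import Pool.Agent.Lib.MP_d0893a_co.LW

/-!
# Block decomposition of the grid (problem MP_d0893a_co)
-/

open Finset

namespace Pool.Agent.Grid

variable {k n : ℕ}

/-- `x + e_i` (when it makes sense) -/
def nxt (x : Fin n → Fin k) (i : Fin n) (h : (x i : ℕ) + 1 < k) : Fin n → Fin k :=
  Function.update x i ⟨(x i : ℕ) + 1, h⟩

/-- cut edges in direction `i`, given by their lower endpoint -/
noncomputable def cut (A : Finset (Fin n → Fin k)) (i : Fin n) : Finset (Fin n → Fin k) :=
  open Classical in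
  univ.filter fun x => ∃ h : (x i : ℕ) + 1 < k, ¬ (x ∈ A ↔ nxt x i h ∈ A)

theorem mem_cut {A : Finset (Fin n → Fin k)} {i : Fin n} {x : Fin n → Fin k} :
    x ∈ cut A i ↔ ∃ h : (x i : ℕ) + 1 < k, ¬ (x ∈ A ↔ nxt x i h ∈ A) := by
  classical
  simp [cut]

theorem adj_nxt (x : Fin n → Fin k) (i : Fin n) (h : (x i : ℕ) + 1 < k) :
    (gridGraph k n).Adj x (nxt x i h) := by
  show ∑ j, |(((x j : ℕ) : ℤ) - ((nxt x i h j : ℕ) : ℤ))| = 1
  rw [sum_eq_single i]
  · rw [nxt, Function.update_self]
    simp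
  · intro j _ hj
    rw [nxt, Function.update_of_ne hj]
    simp
  · intro h'
    exact absurd (mem_univ i) h'

theorem sum_nxt (x : Fin n → Fin k) (i : Fin n) (h : (x i : ℕ) + 1 < k) :
    ∑ j, ((nxt x i h j : Fin k) : ℕ) = ∑ j, ((x j : Fin k) : ℕ) + 1 := by
  rw [← add_sum_erase univ _ (mem_univ i), ← add_sum_erase univ (fun j => ((x j : Fin k) : ℕ))
    (mem_univ i)]
  have h1 : ∑ j ∈ univ.erase i, ((nxt x i h j : Fin k) : ℕ) = ∑ j ∈ univ.erase i, ((x j : Fin k) : ℕ) := by
    refine sum_congr rfl fun j hj => ?_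
    rw [nxt, Function.update_of_ne (ne_of_mem_erase hj)]
  rw [h1]
  simp only [nxt, Function.update_self]
  ring

/-- the number of cut edges is the size of the edge boundary (lower bound) -/
theorem sum_cut_le (A : Finset (Fin n → Fin k)) :
    ∑ i, (cut A i).card ≤ (edgeBoundary A).card := by
  classical
  rw [← card_sigma]
  refine card_le_card_of_injOn
    (fun p : (_ : Fin n) × (Fin n → Fin k) =>
      if h : (p.2 p.1 : ℕ) + 1 < k then s(p.2, nxt p.2 p.1 h) else s(p.2, p.2)) ?_ ?_
  · rintro ⟨i, x⟩ hp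
    obtain ⟨h, hx⟩ := mem_cut.1 (mem_sigma.1 (mem_coe.1 hp)).2
    simp only [dif_pos h]
    rw [mem_coe, edgeBoundary, mem_filter, SimpleGraph.mem_edgeFinset, SimpleGraph.mem_edgeSet]
    refine ⟨adj_nxt x i h, ?_⟩
    by_cases hA : x ∈ A
    · refine ⟨x, hA, nxt x i h, ?_, rfl⟩
      intro h'
      exact hx ⟨fun _ => h', fun _ => hA⟩
    · refine ⟨nxt x i h, ?_, x, hA, Sym2.eq_swap⟩
      by_contra h'
      exact hx ⟨fun h => absurd h hA, fun h => absurd h h'⟩
  · rintro ⟨i, x⟩ hp ⟨j, y⟩ hq heq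
    obtain ⟨h, _⟩ := mem_cut.1 (mem_sigma.1 (mem_coe.1 hp)).2
    obtain ⟨h', _⟩ := mem_cut.1 (mem_sigma.1 (mem_coe.1 hq)).2
    simp only [dif_pos h, dif_pos h'] at heq
    rcases Sym2.eq_iff.1 heq with ⟨h1, h2⟩ | ⟨h1, h2⟩
    · subst h1
      by_cases hij : i = j
      · subst hij; rfl
      · exfalso
        have := congrFun h2 i
        rw [nxt, nxt, Function.update_self, Function.update_of_ne hij] at this
        have := congrArg Fin.val this
        simp at this
    · exfalso
      have e1 := sum_nxt x i h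
      have e2 := sum_nxt y j h'
      rw [h2] at e1
      rw [← h1] at e2
      omega

/-- discrete intermediate value theorem -/
theorem exists_step {p : ℕ → Prop} {u v : ℕ} (huv : u ≤ v) (h : ¬ (p u ↔ p v)) :
    ∃ t, u ≤ t ∧ t < v ∧ ¬ (p t ↔ p (t + 1)) := by
  induction v, huv using Nat.le_induction with
  | base => exact absurd Iff.rfl h
  | succ v huv ih =>
    by_cases h' : (p u ↔ p v)
    · exact ⟨v, huv, Nat.lt_succ_self v, fun h2 => h (h'.trans h2)⟩
    · obtain ⟨t, h1, h2, h3⟩ := ih h'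
      exact ⟨t, h1, h2.trans (Nat.lt_succ_self v), h3⟩

/-- key of the box line in direction `i` through `x` -/
def key (φ : Fin k → ℕ) (x0 : Fin k) (i : Fin n) (x : Fin n → Fin k) :
    (Fin n → ℕ) × (Fin n → Fin k) := (fun j => φ (x j), Function.update x i x0)

theorem key_update {φ : Fin k → ℕ} {x0 : Fin k} {i : Fin n} {x : Fin n → Fin k} {t : Fin k}
    (h : φ t = φ (x i)) : key φ x0 i (Function.update x i t) = key φ x0 i x := by
  unfold key
  refine Prod.ext ?_ ?_
  · funext j
    by_cases hj : j = i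
    · subst hj
      simp [h]
    · simp [Function.update_of_ne hj]
  · simp

theorem eq_update_of_key {φ : Fin k → ℕ} {x0 : Fin k} {i : Fin n} {x x' : Fin n → Fin k}
    (h : key φ x0 i x' = key φ x0 i x) : x' = Function.update x i (x' i) ∧ φ (x' i) = φ (x i) := by
  have h1 := congrFun (congrArg Prod.fst h) i
  have h2 := congrArg Prod.snd h
  refine ⟨?_, h1⟩
  funext j
  by_cases hj : j = i
  · subst hj
    simp
  · have := congrFun h2 j
    simp only [key, Function.update_of_ne hj] at this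
    rw [this, Function.update_of_ne hj]

/-- a box line that is met and not full contains a cut edge -/
theorem exists_cut {φ : Fin k → ℕ} (hφ : Monotone φ) {x0 : Fin k} {i : Fin n}
    {A : Finset (Fin n → Fin k)} {x x' : Fin n → Fin k} (hx : x ∈ A) (hx' : x' ∉ A)
    (h : key φ x0 i x' = key φ x0 i x) : ∃ y ∈ cut A i, key φ x0 i y = key φ x0 i x := by
  obtain ⟨h1, h2⟩ := eq_update_of_key h
  set p : ℕ → Prop := fun t => ∃ ht : t < k, Function.update x i ⟨t, ht⟩ ∈ A with hp
  have hpx : p (x i : ℕ) := ⟨(x i).2, by simpa using hx⟩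
  have hpx' : ¬ p (x' i : ℕ) := by
    rintro ⟨_, h3⟩
    rw [Fin.eta, ← h1] at h3
    exact hx' h3
  have main : ∀ t : ℕ, t + 1 < k → ∀ (lo hi : Fin k), φ lo = φ (x i) → φ hi = φ (x i) →
      (lo : ℕ) ≤ t → t + 1 ≤ (hi : ℕ) → ¬ (p t ↔ p (t + 1)) →
      ∃ y ∈ cut A i, key φ x0 i y = key φ x0 i x := by
    intro t ht lo hi hlo hhi h3 h4 h5
    have ht' : t < k := by omega
    have hφt : φ ⟨t, ht'⟩ = φ (x i) := by
      refine le_antisymm ?_ ?_
      · rw [← hhi]
        exact hφ (by rw [Fin.le_def]; simp; omega)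
      · rw [← hlo]
        exact hφ (by rw [Fin.le_def]; simp; omega)
    refine ⟨Function.update x i ⟨t, ht'⟩, mem_cut.2 ⟨by simpa using ht, ?_⟩, key_update hφt⟩
    intro hiff
    apply h5
    have e : nxt (Function.update x i ⟨t, ht'⟩) i (by simpa using ht)
        = Function.update x i ⟨t + 1, ht⟩ := by
      simp [nxt]
    rw [e] at hiff
    exact ⟨fun ⟨_, h6⟩ => ⟨ht, hiff.1 h6⟩, fun ⟨_, h6⟩ => ⟨ht', hiff.2 h6⟩⟩
  rcases le_total (x i : ℕ) (x' i : ℕ) with hle | hle
  · obtain ⟨t, a1, a2, a3⟩ := exists_step hle (fun hh => hpx' (hh.1 hpx))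
    exact main t (lt_of_le_of_lt a2 (x' i).2) (x i) (x' i) rfl h2 a1 a2 a3
  · obtain ⟨t, a1, a2, a3⟩ := exists_step hle (fun hh => hpx' (hh.2 hpx))
    exact main t (lt_of_le_of_lt a2 (x i).2) (x' i) (x i) h2 rfl a1 a2 a3

/-- the number of box lines in direction `i` that meet `A` -/
noncomputable def lines (φ : Fin k → ℕ) (x0 : Fin k) (A : Finset (Fin n → Fin k)) (i : Fin n) :
    Finset ((Fin n → ℕ) × (Fin n → Fin k)) := A.image (key φ x0 i)

theorem card_lines_le {φ : Fin k → ℕ} (hφ : Monotone φ) {x0 : Fin k} {s : ℕ}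
    (hs : ∀ t : Fin k, s ≤ (univ.filter fun t' => φ t' = φ t).card)
    (A : Finset (Fin n → Fin k)) (i : Fin n) :
    (lines φ x0 A i).card * s ≤ A.card + (cut A i).card * s := by
  classical
  set full := (lines φ x0 A i).filter fun z => z ∉ (cut A i).image (key φ x0 i) with hfull
  have h1 : (lines φ x0 A i).card ≤ full.card + (cut A i).card := by
    have : lines φ x0 A i ⊆ full ∪ (cut A i).image (key φ x0 i) := by
      intro z hz
      rw [mem_union]
      by_cases hz' : z ∈ (cut A i).image (key φ x0 i)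
      · exact Or.inr hz'
      · exact Or.inl (mem_filter.2 ⟨hz, hz'⟩)
    refine (card_le_card this).trans ((card_union_le _ _).trans ?_)
    exact Nat.add_le_add_left card_image_le _
  have h2 : full.card * s ≤ A.card := by
    have hmaps : ∀ x ∈ A.filter (fun x => key φ x0 i x ∈ full), key φ x0 i x ∈ full := by
      intro x hx
      exact (mem_filter.1 hx).2
    have h3 := card_eq_sum_card_fiberwise (f := key φ x0 i)
      (s := A.filter (fun x => key φ x0 i x ∈ full)) (t := full) (fun x hx => hmaps x hx)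
    have h4 : full.card * s ≤ (A.filter (fun x => key φ x0 i x ∈ full)).card := by
      rw [h3, ← smul_eq_mul, ← sum_const]
      refine sum_le_sum fun z hz => ?_
      obtain ⟨hz1, hz2⟩ := mem_filter.1 hz
      obtain ⟨x, hx, rfl⟩ := mem_image.1 hz1
      refine (hs (x i)).trans ?_
      refine card_le_card_of_injOn (fun t => Function.update x i t) ?_ ?_
      · intro t ht
        have ht' : φ t = φ (x i) := (mem_filter.1 (mem_coe.1 ht)).2
        have hk : key φ x0 i (Function.update x i t) = key φ x0 i x := key_update ht'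
        refine mem_coe.2 (mem_filter.2 ⟨mem_filter.2 ⟨?_, ?_⟩, hk⟩)
        · by_contra hnot
          obtain ⟨y, hy, hy'⟩ := exists_cut hφ hx hnot hk
          exact hz2 (mem_image.2 ⟨y, hy, hy'⟩)
        · simp only [hk]
          exact hz
      · intro t _ t' _ htt
        exact Function.update_injective x i htt
    exact h4.trans (card_le_card (filter_subset _ _))
  calc (lines φ x0 A i).card * s ≤ (full.card + (cut A i).card) * s := Nat.mul_le_mul_right _ h1
    _ = full.card * s + (cut A i).card * s := by ring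
    _ ≤ _ := Nat.add_le_add_right h2 _

/-- part of `A` in the box with label `y` -/
noncomputable def boxPart (φ : Fin k → ℕ) (A : Finset (Fin n → Fin k)) (y : Fin n → ℕ) :
    Finset (Fin n → Fin k) := A.filter fun x => (fun j => φ (x j)) = y

theorem card_lines_eq (φ : Fin k → ℕ) (x0 : Fin k) (A : Finset (Fin n → Fin k)) (i : Fin n) :
    (lines φ x0 A i).card = ∑ y ∈ A.image (fun x j => φ (x j)), pr x0 (boxPart φ A y) i := by
  classical
  have h3 := card_eq_sum_card_fiberwise (f := Prod.fst) (s := lines φ x0 A i)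
    (t := A.image (fun x j => φ (x j))) (by
      intro z hz
      obtain ⟨x, hx, rfl⟩ := mem_image.1 (mem_coe.1 hz)
      exact mem_coe.2 (mem_image.2 ⟨x, hx, rfl⟩))
  rw [h3]
  refine sum_congr rfl fun y _ => ?_
  unfold pr
  symm
  refine card_bij (fun w _ => (y, w)) ?_ ?_ ?_
  · intro w hw
    obtain ⟨x, hx, rfl⟩ := mem_image.1 hw
    obtain ⟨hx1, hx2⟩ := mem_filter.1 hx
    refine mem_filter.2 ⟨mem_image.2 ⟨x, hx1, ?_⟩, rfl⟩
    rw [key, hx2]
  · intro w _ w' _ h
    exact (Prod.mk.inj h).2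
  · intro z hz
    obtain ⟨hz1, hz2⟩ := mem_filter.1 hz
    obtain ⟨x, hx, rfl⟩ := mem_image.1 hz1
    refine ⟨Function.update x i x0, mem_image.2 ⟨x, mem_filter.2 ⟨hx, hz2⟩, rfl⟩, ?_⟩
    rw [← hz2]
    rfl

theorem sum_boxPart (φ : Fin k → ℕ) (A : Finset (Fin n → Fin k)) :
    ∑ y ∈ A.image (fun x j => φ (x j)), (boxPart φ A y).card = A.card :=
  (card_eq_sum_card_image (fun (x : Fin n → Fin k) j => φ (x j)) A).symm

/-- the isoperimetric inequality in blocks -/
theorem blocks_ineq {φ : Fin k → ℕ} (hφ : Monotone φ) (x0 : Fin k) {s : ℕ} (hs0 : 0 < s)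
    (hs : ∀ t : Fin k, s ≤ (univ.filter fun t' => φ t' = φ t).card)
    (A : Finset (Fin n → Fin k)) {M : ℝ} (hM : 0 < M)
    (hA : ∀ y, ((boxPart φ A y).card : ℝ) ≤ M) :
    (n : ℝ) * A.card * M ^ (-(1 / (n : ℝ))) ≤ n * A.card / s + (edgeBoundary A).card := by
  have hs' : (0 : ℝ) < s := Nat.cast_pos.2 hs0
  calc (n : ℝ) * A.card * M ^ (-(1 / (n : ℝ)))
      = ∑ y ∈ A.image (fun x j => φ (x j)), (n : ℝ) * (boxPart φ A y).card
          * M ^ (-(1 / (n : ℝ))) := by
        rw [← sum_boxPart φ A]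
        push_cast
        rw [mul_sum, sum_mul]
    _ ≤ ∑ y ∈ A.image (fun x j => φ (x j)), ∑ i, (pr x0 (boxPart φ A y) i : ℝ) :=
        sum_le_sum fun y _ => lw x0 n _ M hM (hA y)
    _ = ∑ i, ((lines φ x0 A i).card : ℝ) := by
        rw [sum_comm]
        refine sum_congr rfl fun i _ => ?_
        rw [card_lines_eq]
        push_cast
        rfl
    _ ≤ ∑ i : Fin n, ((A.card : ℝ) / s + (cut A i).card) := by
        refine sum_le_sum fun i _ => ?_
        have h := card_lines_le hφ (x0 := x0) hs A i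
        have h' : ((lines φ x0 A i).card : ℝ) * s ≤ A.card + (cut A i).card * s := by
          exact_mod_cast h
        rw [div_add' _ _ _ hs'.ne', le_div_iff₀ hs']
        exact h'
    _ = n * A.card / s + ∑ i, ((cut A i).card : ℝ) := by
        rw [sum_add_distrib, sum_const, card_univ, Fintype.card_fin, nsmul_eq_mul, mul_div_assoc]
    _ ≤ _ := by
        have h := sum_cut_le A
        have h' : ∑ i, ((cut A i).card : ℝ) ≤ (edgeBoundary A).card := by exact_mod_cast h
        linarith

end Pool.Agent.Grid
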