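import Pool.Agent.Lib.MP_d0893a_co.Blocks

/-!
# Blowing up the grid `[k]^n` to `[T]^n` (problem MP_d0893a_co)
-/

open Finset

namespace Pool.Agent.Grid

/-- a division of `[T]` into `k` nonempty consecutive blocks -/
structure Bl (k T : ℕ) where
  /-- starting points -/
  st : ℕ → ℕ
  mono : StrictMono st
  zero : st 0 = 0
  top : st k = T

namespace Bl

variable {k T : ℕ} (b : Bl k T)

/-- number of the block of `t` -/
def idx (t : ℕ) : ℕ := ((range k).filter fun a => b.st (a + 1) ≤ t).card

theorem idx_eq {a t : ℕ} (ha : a < k) (h1 : b.st a ≤ t) (h2 : t < b.st (a + 1)) :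
    b.idx t = a := by
  have : (range k).filter (fun a' => b.st (a' + 1) ≤ t) = range a := by
    ext a'
    rw [mem_filter, mem_range, mem_range]
    constructor
    · rintro ⟨_, h4⟩
      exact Nat.lt_of_succ_lt_succ (b.mono.lt_iff_lt.1 (h4.trans_lt h2))
    · intro h3
      exact ⟨h3.trans ha, (b.mono.monotone h3).trans h1⟩
  rw [idx, this, card_range]

theorem exists_block {t : ℕ} (ht : t < T) : ∃ a < k, b.st a ≤ t ∧ t < b.st (a + 1) := by
  have key : ∀ k', t < b.st k' → ∃ a < k', b.st a ≤ t ∧ t < b.st (a + 1) := by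
    intro k'
    induction k' with
    | zero =>
      intro h
      rw [b.zero] at h
      exact absurd h (Nat.not_lt_zero _)
    | succ k' ih =>
      intro h
      by_cases h' : t < b.st k'
      · obtain ⟨a, h1, h2⟩ := ih h'
        exact ⟨a, h1.trans (Nat.lt_succ_self _), h2⟩
      · exact ⟨k', Nat.lt_succ_self _, not_lt.1 h', h⟩
  exact key k (by rw [b.top]; exact ht)

theorem idx_lt {t : ℕ} (ht : t < T) : b.idx t < k := by
  obtain ⟨a, h1, h2, h3⟩ := b.exists_block ht
  rw [b.idx_eq h1 h2 h3]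
  exact h1

theorem idx_eq_iff {a t : ℕ} (ht : t < T) (ha : a < k) :
    b.idx t = a ↔ b.st a ≤ t ∧ t < b.st (a + 1) := by
  constructor
  · rintro rfl
    obtain ⟨a, h1, h2, h3⟩ := b.exists_block ht
    rw [b.idx_eq h1 h2 h3]
    exact ⟨h2, h3⟩
  · rintro ⟨h1, h2⟩
    exact b.idx_eq ha h1 h2

theorem idx_mono {t t' : ℕ} (h : t ≤ t') : b.idx t ≤ b.idx t' := by
  refine card_le_card fun a ha => ?_
  rw [mem_filter] at ha ⊢
  exact ⟨ha.1, ha.2.trans h⟩

theorem idx_succ {t : ℕ} (ht : t + 1 < T) : b.idx (t + 1) ≤ b.idx t + 1 := by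
  have h1 := (b.idx_eq_iff (by omega : t < T) (b.idx_lt (by omega))).1 rfl
  have h2 := (b.idx_eq_iff ht (b.idx_lt ht)).1 rfl
  have h3 : b.st (b.idx (t + 1)) ≤ b.st (b.idx t + 1) := by omega
  exact b.mono.le_iff_le.1 h3

/-- the block map -/
def map (t : Fin T) : Fin k := ⟨b.idx t, b.idx_lt t.2⟩

/-- length of a block -/
def len (a : Fin k) : ℕ := b.st ((a : ℕ) + 1) - b.st a

theorem card_fib (a : Fin k) : (univ.filter fun t : Fin T => b.map t = a).card = b.len a := by
  have hT : b.st ((a : ℕ) + 1) ≤ T := (b.mono.monotone a.2).trans_eq b.top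
  have hmap : (univ.filter fun t : Fin T => b.map t = a).map Fin.valEmbedding
      = Ico (b.st a) (b.st ((a : ℕ) + 1)) := by
    ext x
    rw [mem_map, mem_Ico]
    constructor
    · rintro ⟨t, ht, rfl⟩
      have h1 : b.map t = a := (mem_filter.1 ht).2
      exact (b.idx_eq_iff t.2 a.2).1 (congrArg Fin.val h1)
    · rintro ⟨h1, h2⟩
      refine ⟨⟨x, h2.trans_le hT⟩, mem_filter.2 ⟨mem_univ _, Fin.ext ?_⟩, rfl⟩
      exact b.idx_eq a.2 h1 h2
  rw [← card_map Fin.valEmbedding, hmap, Nat.card_Ico]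
  rfl

/-- at most one element of a block is followed by an element of another block -/
theorem card_last (a : Fin k) :
    (univ.filter fun t : Fin T => b.map t = a ∧ ∃ h : (t : ℕ) + 1 < T, b.map ⟨t + 1, h⟩ ≠ a).card
      ≤ 1 := by
  rw [card_le_one]
  have key : ∀ t t' : Fin T, b.map t = a → (∃ h : (t : ℕ) + 1 < T, b.map ⟨t + 1, h⟩ ≠ a) →
      b.map t' = a → ¬ (t < t') := by
    intro t t' h1 ⟨h2, h3⟩ h4 hlt
    apply h3
    refine Fin.ext (le_antisymm ?_ ?_)
    · rw [← h4]
      exact b.idx_mono hlt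
    · rw [← h1]
      exact b.idx_mono (Nat.le_succ _)
  intro t ht t' ht'
  obtain ⟨_, h1, h2⟩ := mem_filter.1 ht
  obtain ⟨_, h3, h4⟩ := mem_filter.1 ht'
  rcases lt_trichotomy t t' with h | h | h
  · exact absurd h (key t t' h1 h2 h3)
  · exact h
  · exact absurd h (key t' t h3 h4 h1)

end Bl

variable {k T n : ℕ}

/-- the block map in all coordinates -/
def bmap (b : Fin n → Bl k T) (x : Fin n → Fin T) : Fin n → Fin k := fun i => (b i).map (x i)

/-- the blow-up of `A` -/
def pull (b : Fin n → Bl k T) (A : Finset (Fin n → Fin k)) : Finset (Fin n → Fin T) :=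
  univ.filter fun x => bmap b x ∈ A

theorem mem_pull {b : Fin n → Bl k T} {A : Finset (Fin n → Fin k)} {x : Fin n → Fin T} :
    x ∈ pull b A ↔ bmap b x ∈ A := by simp [pull]

/-- size of the blow-up -/
theorem card_pull (b : Fin n → Bl k T) (A : Finset (Fin n → Fin k)) :
    (pull b A).card = ∑ x ∈ A, ∏ i, (b i).len (x i) := by
  rw [card_eq_sum_card_fiberwise (f := bmap b) (t := A) (fun x hx => mem_pull.1 hx)]
  refine sum_congr rfl fun a ha => ?_
  have : (pull b A).filter (fun x => bmap b x = a)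
      = Fintype.piFinset fun i => univ.filter fun t : Fin T => (b i).map t = a i := by
    ext x
    simp only [mem_filter, mem_pull, Fintype.mem_piFinset, mem_univ, true_and]
    constructor
    · rintro ⟨_, h⟩ i
      exact congrFun h i
    · intro h
      have h' : bmap b x = a := funext h
      exact ⟨by rw [h']; exact ha, h'⟩
  rw [this, Fintype.card_piFinset]
  exact prod_congr rfl fun i _ => (b i).card_fib (a i)

/-- cut edges of the blow-up -/
theorem card_cut_pull_le {Q : ℕ} (b : Fin n → Bl k T) (hQ : ∀ i a, (b i).len a ≤ Q)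
    (A : Finset (Fin n → Fin k)) (i : Fin n) :
    (cut (pull b A) i).card ≤ Q ^ (n - 1) * (cut A i).card := by
  classical
  set D : (Fin n → Fin k) → Fin n → Finset (Fin T) := fun a i' =>
    if i' = i then univ.filter fun t : Fin T => (b i').map t = a i' ∧
        ∃ h : (t : ℕ) + 1 < T, (b i').map ⟨t + 1, h⟩ ≠ a i'
      else univ.filter fun t : Fin T => (b i').map t = a i' with hD
  have hsub : cut (pull b A) i ⊆ (cut A i).biUnion fun a => Fintype.piFinset (D a) := by
    intro y hy
    obtain ⟨h, hy'⟩ := mem_cut.1 hy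
    rw [mem_pull, mem_pull] at hy'
    have hne : (b i).map ⟨(y i : ℕ) + 1, h⟩ ≠ (b i).map (y i) := by
      intro he
      apply hy'
      have : bmap b (nxt y i h) = bmap b y := by
        funext i'
        by_cases hi : i' = i
        · subst hi
          simp only [bmap, nxt, Function.update_self]
          exact he
        · simp only [bmap, nxt, Function.update_of_ne hi]
      rw [this]
    have h1 : ((b i).map (y i) : ℕ) ≤ ((b i).map ⟨(y i : ℕ) + 1, h⟩ : Fin k) :=
      (b i).idx_mono (Nat.le_succ _)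
    have h2 : ((b i).map ⟨(y i : ℕ) + 1, h⟩ : ℕ) ≤ ((b i).map (y i) : ℕ) + 1 := (b i).idx_succ h
    have h3 : ((b i).map ⟨(y i : ℕ) + 1, h⟩ : ℕ) ≠ ((b i).map (y i) : ℕ) :=
      fun hh => hne (Fin.ext hh)
    have h4 : ((b i).map ⟨(y i : ℕ) + 1, h⟩ : ℕ) = ((b i).map (y i) : ℕ) + 1 := by omega
    have hlt : ((bmap b y i : Fin k) : ℕ) + 1 < k := by
      have h5 : ((b i).map ⟨(y i : ℕ) + 1, h⟩ : ℕ) < k := ((b i).map ⟨(y i : ℕ) + 1, h⟩).2
      rw [h4] at h5
      exact h5
    rw [mem_biUnion]
    refine ⟨bmap b y, mem_cut.2 ⟨hlt, ?_⟩, ?_⟩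
    · have : nxt (bmap b y) i hlt = bmap b (nxt y i h) := by
        funext i'
        by_cases hi : i' = i
        · subst hi
          simp only [bmap, nxt, Function.update_self]
          exact Fin.ext h4.symm
        · simp only [bmap, nxt, Function.update_of_ne hi]
      rw [this]
      exact hy'
    · rw [Fintype.mem_piFinset]
      intro i'
      by_cases hi : i' = i
      · subst hi
        simp only [hD, if_true, mem_filter, mem_univ, true_and]
        exact ⟨rfl, h, hne⟩
      · simp only [hD, if_neg hi, mem_filter, mem_univ, true_and]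
        rfl
  have hcard : ∀ a ∈ cut A i, (Fintype.piFinset (D a)).card ≤ Q ^ (n - 1) := by
    intro a _
    rw [Fintype.card_piFinset, ← mul_prod_erase univ _ (mem_univ i)]
    calc (D a i).card * ∏ i' ∈ univ.erase i, (D a i').card
        ≤ 1 * ∏ _i' ∈ univ.erase i, Q := by
          refine Nat.mul_le_mul ?_ (prod_le_prod' fun i' hi' => ?_)
          · simp only [hD, if_true]
            exact (b i).card_last (a i)
          · simp only [hD, if_neg (ne_of_mem_erase hi')]
            rw [(b i').card_fib]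
            exact hQ i' _
      _ = Q ^ (n - 1) := by
          rw [one_mul, prod_const, card_erase_of_mem (mem_univ i), card_univ, Fintype.card_fin]
  calc (cut (pull b A) i).card ≤ ((cut A i).biUnion fun a => Fintype.piFinset (D a)).card :=
        card_le_card hsub
    _ ≤ ∑ a ∈ cut A i, (Fintype.piFinset (D a)).card := card_biUnion_le
    _ ≤ ∑ _a ∈ cut A i, Q ^ (n - 1) := sum_le_sum hcard
    _ = _ := by rw [sum_const, smul_eq_mul, mul_comm]

/-! ### Sections of product sets -/

/-- the element number `u` of block `a` -/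
def sg (b : Fin n → Bl k T) {q : ℕ} (hq : ∀ i a, q ≤ (b i).len a) (u : Fin n → Fin q)
    (a : Fin n → Fin k) (i : Fin n) : Fin T :=
  ⟨(b i).st (a i) + u i, by
    have h1 := hq i (a i)
    have h2 := (u i).2
    have h3 : (b i).st ((a i : ℕ) + 1) ≤ T := ((b i).mono.monotone (a i).2).trans_eq (b i).top
    unfold Bl.len at h1
    omega⟩

theorem bmap_sg (b : Fin n → Bl k T) {q : ℕ} (hq : ∀ i a, q ≤ (b i).len a) (u : Fin n → Fin q)
    (a : Fin n → Fin k) : bmap b (sg b hq u a) = a := by
  funext i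
  refine Fin.ext ((b i).idx_eq (a i).2 (Nat.le_add_right _ _) ?_)
  have h1 := hq i (a i)
  have h2 := (u i).2
  unfold Bl.len at h1
  show (b i).st (a i) + u i < _
  omega

theorem sg_inj (b : Fin n → Bl k T) {q : ℕ} (hq : ∀ i a, q ≤ (b i).len a) {u u' : Fin n → Fin q}
    {a a' : Fin n → Fin k} (h : sg b hq u a = sg b hq u' a') : u = u' ∧ a = a' := by
  have ha : a = a' := by
    rw [← bmap_sg b hq u a, h, bmap_sg b hq u' a']
  subst ha
  refine ⟨?_, rfl⟩
  funext i
  have := congrArg Fin.val (congrFun h i)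
  simp only [sg, Nat.add_left_cancel_iff] at this
  exact Fin.ext this

/-- sections of a product set -/
def sec (b : Fin n → Bl k T) {q : ℕ} (hq : ∀ i a, q ≤ (b i).len a) (C : Fin n → Finset (Fin T))
    (u : Fin n → Fin q) (i : Fin n) : Finset (Fin k) :=
  univ.filter fun a => ∃ a' : Fin n → Fin k, a' i = a ∧ sg b hq u a' i ∈ C i

theorem mem_sec (b : Fin n → Bl k T) {q : ℕ} (hq : ∀ i a, q ≤ (b i).len a)
    (C : Fin n → Finset (Fin T)) (u : Fin n → Fin q) (a : Fin n → Fin k) :
    a ∈ Fintype.piFinset (sec b hq C u) ↔ sg b hq u a ∈ Fintype.piFinset C := by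
  rw [Fintype.mem_piFinset, Fintype.mem_piFinset]
  refine forall_congr' fun i => ?_
  rw [sec, mem_filter]
  constructor
  · rintro ⟨_, a', h1, h2⟩
    have : sg b hq u a' i = sg b hq u a i := by
      refine Fin.ext ?_
      simp only [sg, h1]
    rwa [← this]
  · intro h
    exact ⟨mem_univ _, a, rfl, h⟩

theorem sum_sec_le (b : Fin n → Bl k T) {q : ℕ} (hq : ∀ i a, q ≤ (b i).len a)
    (C : Fin n → Finset (Fin T)) :
    ∑ u : Fin n → Fin q, (Fintype.piFinset (sec b hq C u)).card ≤ (Fintype.piFinset C).card := by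
  rw [← card_sigma]
  refine card_le_card_of_injOn
    (fun p : (_ : Fin n → Fin q) × (Fin n → Fin k) => sg b hq p.1 p.2) ?_ ?_
  · rintro ⟨u, a⟩ hp
    exact mem_coe.2 ((mem_sec b hq C u a).1 (mem_sigma.1 (mem_coe.1 hp)).2)
  · rintro ⟨u, a⟩ _ ⟨u', a'⟩ _ h
    obtain ⟨h1, h2⟩ := sg_inj b hq h
    subst h1
    subst h2
    rfl

/-- points none of whose coordinates is in the remainder -/
theorem card_inter_le (b : Fin n → Bl k T) {q : ℕ} (hq : ∀ i a, q ≤ (b i).len a)
    (C : Fin n → Finset (Fin T)) (A : Finset (Fin n → Fin k)) :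
    (pull b A ∩ Fintype.piFinset C).card ≤
      ∑ u : Fin n → Fin q, (A ∩ Fintype.piFinset (sec b hq C u)).card
        + (T ^ n - k ^ n * q ^ n) := by
  classical
  set G : Finset (Fin n → Fin T) :=
    (univ : Finset ((Fin n → Fin q) × (Fin n → Fin k))).image fun p => sg b hq p.1 p.2 with hG
  have hGcard : G.card = k ^ n * q ^ n := by
    rw [hG, card_image_of_injective]
    · rw [card_univ, Fintype.card_prod, Fintype.card_fun, Fintype.card_fun, Fintype.card_fin,
        Fintype.card_fin, Fintype.card_fin, mul_comm]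
    · rintro ⟨u, a⟩ ⟨u', a'⟩ h
      obtain ⟨h1, h2⟩ := sg_inj b hq h
      exact Prod.ext h1 h2
  have hGc : Gᶜ.card = T ^ n - k ^ n * q ^ n := by
    rw [card_compl, hGcard, Fintype.card_fun, Fintype.card_fin, Fintype.card_fin]
  rw [← hGc, ← card_sigma]
  have hsub : pull b A ∩ Fintype.piFinset C ⊆
      ((univ.sigma fun u : Fin n → Fin q => A ∩ Fintype.piFinset (sec b hq C u)).image
        fun p : (_ : Fin n → Fin q) × (Fin n → Fin k) => sg b hq p.1 p.2) ∪ Gᶜ := by
    intro x hx
    rw [mem_inter, mem_pull] at hx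
    rw [mem_union]
    by_cases hxG : x ∈ G
    · left
      obtain ⟨⟨u, a⟩, _, rfl⟩ := mem_image.1 hxG
      rw [bmap_sg] at hx
      exact mem_image.2 ⟨⟨u, a⟩, mem_sigma.2 ⟨mem_univ _, mem_inter.2 ⟨hx.1,
        (mem_sec b hq C u a).2 hx.2⟩⟩, rfl⟩
    · right
      exact mem_compl.2 hxG
  exact (card_le_card hsub).trans ((card_union_le _ _).trans
    (Nat.add_le_add_right card_image_le _))

/-! ### The standard blocks -/

/-- blocks of length `q`, block `j` has length `q + r` -/
def stdBl {k : ℕ} (q r : ℕ) (hq : 0 < q) (j : Fin k) : Bl k (k * q + r) where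
  st a := a * q + if (j : ℕ) < a then r else 0
  mono := by
    refine strictMono_nat_of_lt_succ fun a => ?_
    have e : (a + 1) * q = a * q + q := by ring
    rw [e]
    split_ifs <;> omega
  zero := by simp
  top := by simp

theorem stdBl_len {k : ℕ} (q r : ℕ) (hq : 0 < q) (j a : Fin k) :
    (stdBl q r hq j).len a = q + if a = j then r else 0 := by
  have e : ((a : ℕ) + 1) * q = a * q + q := by ring
  show ((a : ℕ) + 1) * q + (if (j : ℕ) < (a : ℕ) + 1 then r else 0)
    - ((a : ℕ) * q + if (j : ℕ) < (a : ℕ) then r else 0) = _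
  rw [e]
  rcases lt_trichotomy (j : ℕ) (a : ℕ) with h | h | h
  · have h1 : (j : ℕ) < (a : ℕ) + 1 := by omega
    have h2 : a ≠ j := fun hh => by rw [hh] at h; exact lt_irrefl _ h
    rw [if_pos h1, if_pos h, if_neg h2]
    omega
  · have h1 : (j : ℕ) < (a : ℕ) + 1 := by omega
    have h2 : ¬ (j : ℕ) < (a : ℕ) := by omega
    have h3 : a = j := Fin.ext h.symm
    rw [if_pos h1, if_neg h2, if_pos h3]
    omega
  · have h1 : ¬ (j : ℕ) < (a : ℕ) + 1 := by omega
    have h2 : ¬ (j : ℕ) < (a : ℕ) := by omega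
    have h3 : a ≠ j := fun hh => by rw [hh] at h; exact lt_irrefl _ h
    rw [if_neg h1, if_neg h2, if_neg h3]
    omega

/-- the average of the sizes of the blow-ups -/
theorem sum_card_pull {k : ℕ} (q r : ℕ) (hq : 0 < q) (A : Finset (Fin n → Fin k)) :
    ∑ j : Fin n → Fin k, (pull (fun i => stdBl q r hq (j i)) A).card
      = A.card * (k * q + r) ^ n := by
  simp_rw [card_pull, stdBl_len]
  rw [sum_comm]
  have : ∀ x ∈ A, ∑ j : Fin n → Fin k, ∏ i, (q + if x i = j i then r else 0)
      = (k * q + r) ^ n := by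
    intro x _
    rw [← Fintype.piFinset_univ, ← prod_univ_sum (fun _ => (univ : Finset (Fin k)))
      (fun i c => q + if x i = c then r else 0)]
    have h2 : ∀ i ∈ (univ : Finset (Fin n)), ∑ c : Fin k, (q + if x i = c then r else 0)
        = k * q + r := by
      intro i _
      rw [sum_add_distrib, sum_const, card_univ, Fintype.card_fin, smul_eq_mul,
        sum_ite_eq univ (x i), if_pos (mem_univ _)]
    rw [prod_congr rfl h2, prod_const, card_univ, Fintype.card_fin]
  rw [sum_congr rfl this, sum_const, smul_eq_mul]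

/-- there is a blow-up whose measure is not larger -/
theorem exists_pull_le {k : ℕ} (hk : 0 < k) (q r : ℕ) (hq : 0 < q) (A : Finset (Fin n → Fin k)) :
    ∃ j : Fin n → Fin k,
      (pull (fun i => stdBl q r hq (j i)) A).card * k ^ n ≤ A.card * (k * q + r) ^ n := by
  by_contra hcon
  push Not at hcon
  have : Nonempty (Fin k) := ⟨⟨0, hk⟩⟩
  have h1 : ∑ _j : Fin n → Fin k, A.card * (k * q + r) ^ n
      < ∑ j : Fin n → Fin k, (pull (fun i => stdBl q r hq (j i)) A).card * k ^ n :=
    sum_lt_sum_of_nonempty univ_nonempty fun j _ => hcon j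
  rw [sum_const, card_univ, Fintype.card_fun, Fintype.card_fin, Fintype.card_fin, smul_eq_mul,
    ← sum_mul, sum_card_pull] at h1
  rw [mul_comm (k ^ n)] at h1
  exact lt_irrefl _ h1

end Pool.Agent.Grid
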