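import Pool.Agent.Lib.MP_d0893a_co.Reduce

/-!
# The density increment problem in grids reduces to the discrete cube
(problem MP_d0893a_co)
-/

open Finset

namespace Pool.Agent.Grid

/-- Q1 holds for all side lengths `k` if and only if it holds for `k = 2`. -/
theorem cube_reduction : DensityIncrement {2} ↔ DensityIncrement Set.univ := by
  constructor
  · intro H L hL
    set L₁ : ℝ := max L 1 with hL₁
    have h1 : 1 ≤ L₁ := le_max_right _ _
    obtain ⟨La, hLa, δ, hδ, hmain⟩ := main_regime H h1
    set Lb : ℝ := 1 + Real.log (2 * L₁ / (1 / 16 : ℝ) ^ 2) / 1 with hLb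
    have hLb0 : 0 < Lb := by
      have : 0 ≤ Real.log (2 * L₁ / (1 / 16 : ℝ) ^ 2) := by
        refine Real.log_nonneg ?_
        rw [le_div_iff₀ (by norm_num)]
        linarith
      positivity
    refine ⟨max La Lb, lt_max_of_lt_left hLa, min δ (1 / 2), by positivity, ?_⟩
    intro k _ n hk hn A hα hA
    have hk' : (0 : ℝ) < k := Nat.cast_pos.2 hk
    rcases A.eq_empty_or_nonempty with rfl | hne
    · have h0 : meas (∅ : Finset (Fin n → Fin k)) = 0 := by
        unfold meas
        rw [card_empty, Nat.cast_zero, zero_div]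
      have : Nonempty (Fin k) := ⟨⟨0, hk⟩⟩
      refine ⟨fun _ => univ, ?_, ?_, ?_⟩
      · exact ⟨fun _ => ⟨0, hk⟩, Fintype.mem_piFinset.2 fun _ => mem_univ _⟩
      · rw [h0, Real.zero_rpow (lt_max_of_lt_left hLa).ne']
        unfold meas
        positivity
      · rw [h0, mul_zero]
        positivity
    · have ha : (0 : ℝ) < A.card := by exact_mod_cast hne.card_pos
      have hα0 : 0 < meas A := by unfold meas; positivity
      have hα1 : meas A ≤ 1 := by linarith
      have hm : 0 ≤ mBound A := by
        refine Real.sInf_nonneg ?_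
        rintro _ ⟨r, _, rfl⟩
        positivity
      have hA' : ((edgeBoundary A).card : ℝ) ≤ L₁ * mBound A :=
        hA.trans (mul_le_mul_of_nonneg_right (le_max_left _ _) hm)
      rcases le_total (Real.exp (-(n : ℝ))) (meas A) with hcase | hcase
      · obtain ⟨S, h2, h3, h4⟩ := hmain k n hk hn A hne hα hcase hA'
        refine ⟨S, h2, ?_, le_trans ?_ h4⟩
        · exact (Real.rpow_le_rpow_of_exponent_ge hα0 hα1 (le_max_left _ _)).trans h3
        · exact mul_le_mul_of_nonneg_right (by linarith [min_le_left δ (1 / 2)]) hα0.le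
      · have hcase' : meas A ≤ Real.exp (-((1 : ℝ) * n)) := by rw [one_mul]; exact hcase
        obtain ⟨S, h2, h3⟩ := small_step (η := 1 / 16) h1 one_pos (by norm_num) (by norm_num)
          hk hn A hne hcase' hA'
        have h5 : meas A ^ (max La Lb) ≤ meas (Fintype.piFinset S) :=
          (Real.rpow_le_rpow_of_exponent_ge hα0 hα1 (le_max_right _ _)).trans h2
        refine ⟨S, ?_, h5, ?_⟩
        · rw [nonempty_iff_ne_empty]
          intro h0
          have h6 : 0 < meas A ^ (max La Lb) := Real.rpow_pos_of_pos hα0 _
          rw [h0] at h5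
          unfold meas at h5 h6
          rw [card_empty, Nat.cast_zero, zero_div] at h5
          linarith
        · refine le_trans ?_ h3
          have h6 : (1 + min δ (1 / 2)) * meas A ≤ (1 + 1 / 2) * Real.exp (-(n : ℝ)) :=
            mul_le_mul (by linarith [min_le_right δ (1 / 2)]) hcase hα0.le (by norm_num)
          refine h6.trans ?_
          have hn1 : (1 : ℝ) ≤ n := by exact_mod_cast hn
          have h7 : (1 : ℝ) + 1 / 2 ≤ Real.exp (1 / 2 * n) := by
            have := Real.add_one_le_exp (1 / 2 * (n : ℝ))
            linarith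
          calc (1 + 1 / 2) * Real.exp (-(n : ℝ)) ≤ Real.exp (1 / 2 * n) * Real.exp (-(n : ℝ)) :=
                mul_le_mul_of_nonneg_right h7 (Real.exp_pos _).le
            _ = Real.exp (-(8 * (1 / 16) * n)) := by
                rw [← Real.exp_add]
                congr 1
                ring
  · intro H L hL
    obtain ⟨L', hL', δ, hδ, h⟩ := H L hL
    exact ⟨L', hL', δ, hδ, fun k _ => h k (Set.mem_univ k)⟩

end Pool.Agent.Grid
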