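import Mathlib

/-!
# Density increment in the grid: definitions (problem MP_d0893a_co)
-/

open Finset

namespace Pool.Agent.Grid

/-- the `ℓ¹`-grid on `[k]^n` -/
def gridGraph (k n : ℕ) : SimpleGraph (Fin n → Fin k) where
  Adj x y := ∑ i, |(((x i : ℕ) : ℤ) - ((y i : ℕ) : ℤ))| = 1
  symm := by
    constructor
    intro x y h
    rw [← h]
    exact sum_congr rfl fun i _ => abs_sub_comm _ _
  loopless := by
    constructor
    intro x h
    simp at h

/-- the edge boundary: the set of edges of the grid with exactly one endpoint in `A` -/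
noncomputable def edgeBoundary {k n : ℕ} (A : Finset (Fin n → Fin k)) :
    Finset (Sym2 (Fin n → Fin k)) :=
  open Classical in
  (gridGraph k n).edgeFinset.filter fun e => ∃ x ∈ A, ∃ y, y ∉ A ∧ e = s(x, y)

/-- the measure `|B| / k^n` -/
noncomputable def meas {k n : ℕ} (B : Finset (Fin n → Fin k)) : ℝ := (B.card : ℝ) / (k : ℝ) ^ n

/-- `m(A) = min {|A|^(1-1/r) r k^(n/r-1) : 1 ≤ r ≤ n}` -/
noncomputable def mBound {k n : ℕ} (A : Finset (Fin n → Fin k)) : ℝ :=
  sInf ((fun r : ℕ => (A.card : ℝ) ^ (1 - 1 / (r : ℝ)) * (r : ℝ) * (k : ℝ) ^ ((n : ℝ) / (r : ℝ) - 1))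
    '' Set.Icc 1 n)

/-- Q1 for the side lengths `k ∈ K`: near-isoperimetric subsets of `[k]^n` (with constant `L`)
of measure `α ≤ 1/2` have density at least `(1 + δ) α` on a nonempty cartesian product set of
measure at least `α ^ L'`, where `L', δ > 0` depend only on `L`. -/
def DensityIncrement (K : Set ℕ) : Prop :=
  ∀ L : ℝ, 0 < L → ∃ L' : ℝ, 0 < L' ∧ ∃ δ : ℝ, 0 < δ ∧
    ∀ k ∈ K, ∀ n : ℕ, 0 < k → 0 < n → ∀ A : Finset (Fin n → Fin k), meas A ≤ 1 / 2 →
      ((edgeBoundary A).card : ℝ) ≤ L * mBound A →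
      ∃ S : Fin n → Finset (Fin k), (Fintype.piFinset S).Nonempty ∧
        meas A ^ L' ≤ meas (Fintype.piFinset S) ∧
        (1 + δ) * meas A ≤
          ((A ∩ Fintype.piFinset S).card : ℝ) / ((Fintype.piFinset S).card : ℝ)

end Pool.Agent.Grid
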