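import Pool.Agent.Lib.MP_d0893a_co.Blocks

/-!
# Exponentially small near-isoperimetric sets have huge density increments
(problem MP_d0893a_co)
-/

open Finset

namespace Pool.Agent.Grid

variable {k n : ℕ}

/-- division of `[k]` into `q` intervals of almost equal lengths -/
def blk (k q : ℕ) (x : Fin k) : ℕ := (x : ℕ) * q / k

theorem blk_mono (k q : ℕ) : Monotone (blk k q) := fun _ _ h =>
  Nat.div_le_div_right (Nat.mul_le_mul_right q h)

theorem card_fiber {k q : ℕ} (hq : 0 < q) (t : Fin k) :
    k / q ≤ (univ.filter fun t' : Fin k => blk k q t' = blk k q t).card ∧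
      (univ.filter fun t' : Fin k => blk k q t' = blk k q t).card ≤ k / q + 1 := by
  have hk : 0 < k := t.pos
  set j := blk k q t with hj
  have hjq : j < q := by
    rw [hj, blk, Nat.div_lt_iff_lt_mul hk, mul_comm q k]
    exact Nat.mul_lt_mul_of_pos_right t.2 hq
  set a := (j * k + q - 1) / q with ha
  set b := ((j + 1) * k + q - 1) / q with hb
  have hmap : (univ.filter fun t' : Fin k => blk k q t' = j).map Fin.valEmbedding = Ico a b := by
    ext x
    rw [mem_map, mem_Ico]
    have e1 : a ≤ x ↔ j * k ≤ x * q := by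
      rw [ha, Nat.div_le_iff_le_mul_add_pred hq]
      constructor
      · intro h
        rw [mul_comm x q]
        omega
      · intro h
        rw [mul_comm x q] at h
        omega
    have e2 : x < b ↔ x * q < (j + 1) * k := by
      rw [hb, Nat.lt_div_iff_mul_lt hq]
      constructor
      · intro h
        omega
      · intro h
        omega
    rw [e1, e2]
    constructor
    · rintro ⟨t', ht', rfl⟩
      have h1 : (t' : ℕ) * q / k = j := (mem_filter.1 ht').2
      rw [Nat.div_eq_iff hk] at h1
      have h2 : (j + 1) * k = j * k + k := by ring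
      rw [h2]
      show j * k ≤ (t' : ℕ) * q ∧ (t' : ℕ) * q < j * k + k
      omega
    · rintro ⟨h1, h2⟩
      have hxk : x < k := by
        have : x * q < q * k := h2.trans_le (Nat.mul_le_mul_right k hjq)
        rw [mul_comm x q] at this
        exact lt_of_mul_lt_mul_left this (Nat.zero_le q)
      refine ⟨⟨x, hxk⟩, mem_filter.2 ⟨mem_univ _, ?_⟩, rfl⟩
      show x * q / k = j
      have h3 : (j + 1) * k = j * k + k := by ring
      rw [h3] at h2
      rw [Nat.div_eq_iff hk]
      omega
  have hcard : (univ.filter fun t' : Fin k => blk k q t' = j).card = b - a := by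
    rw [← card_map Fin.valEmbedding, hmap, Nat.card_Ico]
  rw [hcard]
  have ha1 : a * q ≤ j * k + q - 1 := Nat.div_mul_le_self _ _
  have ha2 : j * k + q - 1 < (a + 1) * q := by
    rw [mul_comm (a + 1) q]
    exact Nat.lt_mul_div_succ _ hq
  have hb1 : b * q ≤ (j + 1) * k + q - 1 := Nat.div_mul_le_self _ _
  have hb2 : (j + 1) * k + q - 1 < (b + 1) * q := by
    rw [mul_comm (b + 1) q]
    exact Nat.lt_mul_div_succ _ hq
  have h3 : (j + 1) * k = j * k + k := by ring
  rw [h3] at hb1 hb2
  have hab : a ≤ b := by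
    rw [ha, hb]
    exact Nat.div_le_div_right (by rw [h3]; omega)
  obtain ⟨d, hd⟩ := Nat.exists_eq_add_of_le hab
  rw [hd] at hb1 hb2 ⊢
  have e4 : (a + d) * q = a * q + d * q := by ring
  have e5 : (a + d + 1) * q = a * q + d * q + q := by ring
  have e6 : (a + 1) * q = a * q + q := by ring
  rw [e4] at hb1
  rw [e5] at hb2
  rw [e6] at ha2
  rw [Nat.add_sub_cancel_left]
  constructor
  · have h7 : k < (d + 1) * q := by
      have : (d + 1) * q = d * q + q := by ring
      rw [this]
      omega
    exact Nat.lt_succ_iff.1 ((Nat.div_lt_iff_lt_mul hq).2 h7)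
  · rcases Nat.eq_zero_or_pos d with h0 | h0
    · rw [h0]
      exact Nat.zero_le _
    · obtain ⟨d', rfl⟩ := Nat.exists_eq_succ_of_ne_zero h0.ne'
      have h8 : d' * q ≤ k := by
        have : d'.succ * q = d' * q + q := by rw [Nat.succ_mul]
        rw [this] at hb1
        omega
      exact Nat.succ_le_succ ((Nat.le_div_iff_mul_le hq).2 h8)

/-- the box of `x` -/
def box (φ : Fin k → ℕ) (x : Fin n → Fin k) (i : Fin n) : Finset (Fin k) :=
  univ.filter fun t => φ t = φ (x i)

theorem inter_box (φ : Fin k → ℕ) (A : Finset (Fin n → Fin k)) (x : Fin n → Fin k) :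
    A ∩ Fintype.piFinset (box φ x) = boxPart φ A (fun j => φ (x j)) := by
  ext y
  simp only [mem_inter, Fintype.mem_piFinset, box, mem_filter, mem_univ, true_and, boxPart]
  refine and_congr_right fun _ => ?_
  rw [funext_iff]

theorem rpow_small {α c : ℝ} {n : ℕ} {R : ℝ} (hα0 : 0 < α) (hc : 0 < c)
    (hα : α ≤ Real.exp (-(c * n))) (hR : 1 ≤ R) :
    α ^ (1 + Real.log R / c) ≤ α * (R⁻¹) ^ n := by
  rw [Real.rpow_add hα0, Real.rpow_one]
  refine mul_le_mul_of_nonneg_left ?_ hα0.le
  have hR0 : 0 < R := by linarith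
  have hlog : 0 ≤ Real.log R := Real.log_nonneg hR
  calc α ^ (Real.log R / c) ≤ (Real.exp (-(c * n))) ^ (Real.log R / c) :=
        Real.rpow_le_rpow hα0.le hα (by positivity)
    _ = Real.exp (-(c * n) * (Real.log R / c)) := (Real.exp_mul _ _).symm
    _ = Real.exp (n * (-Real.log R)) := by
        congr 1
        field_simp
    _ = (R⁻¹) ^ n := by
        rw [Real.exp_nat_mul, Real.exp_neg, Real.exp_log hR0]

theorem mBound_le (hn : 0 < n) (hk : 0 < k) (A : Finset (Fin n → Fin k)) :
    mBound A ≤ (A.card : ℝ) ^ (1 - 1 / (n : ℝ)) * n := by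
  have hn' : (n : ℝ) ≠ 0 := by exact_mod_cast hn.ne'
  refine csInf_le ?_ ⟨n, ⟨hn, le_rfl⟩, ?_⟩
  · refine ⟨0, ?_⟩
    rintro _ ⟨r, _, rfl⟩
    positivity
  · simp only
    rw [div_self hn', sub_self, Real.rpow_zero, mul_one]

/-- main step (`1 ≤ L`, `ε = 8 η`, `η ≤ 1/8`) -/
theorem small_step {L c η : ℝ} (hL : 1 ≤ L) (hc : 0 < c) (hη : 0 < η) (hη1 : η ≤ 1 / 8)
    (hk : 0 < k) (hn : 0 < n) (A : Finset (Fin n → Fin k)) (hne : A.Nonempty)
    (hα : meas A ≤ Real.exp (-(c * n)))
    (hA : ((edgeBoundary A).card : ℝ) ≤ L * mBound A) :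
    ∃ S : Fin n → Finset (Fin k),
      meas A ^ (1 + Real.log (2 * L / η ^ 2) / c) ≤ meas (Fintype.piFinset S) ∧
      Real.exp (-(8 * η * n)) ≤
        ((A ∩ Fintype.piFinset S).card : ℝ) / ((Fintype.piFinset S).card : ℝ) := by
  have hn' : (0 : ℝ) < n := Nat.cast_pos.2 hn
  have hk' : (0 : ℝ) < k := Nat.cast_pos.2 hk
  have hL0 : 0 < L := by linarith
  have ha : (0 : ℝ) < A.card := by exact_mod_cast hne.card_pos
  have hα0 : 0 < meas A := by unfold meas; positivity
  set R : ℝ := 2 * L / η ^ 2 with hR
  have hRη : 2 * L / η ≤ R := by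
    rw [hR]
    refine div_le_div_of_nonneg_left (by positivity) (by positivity) ?_
    nlinarith
  have hR1 : 1 ≤ R := by
    refine le_trans ?_ hRη
    rw [le_div_iff₀ hη]
    linarith
  have hR0 : 0 < R := by linarith
  have hsmall := rpow_small hα0 hc hα hR1
  -- the side length
  set w : ℝ := (A.card : ℝ) ^ (1 / (n : ℝ)) with hw
  have hw0 : 0 < w := Real.rpow_pos_of_pos ha _
  have hwn : w ^ n = A.card := by
    rw [hw, ← Real.rpow_natCast, ← Real.rpow_mul ha.le, one_div, inv_mul_cancel₀ hn'.ne',
      Real.rpow_one]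
  have hwk : w ≤ k := by
    have h1 : (A.card : ℝ) ≤ (k : ℝ) ^ n := by
      have : A.card ≤ k ^ n := by
        have h2 := card_le_univ A
        rwa [Fintype.card_fun, Fintype.card_fin, Fintype.card_fin] at h2
      exact_mod_cast this
    rw [← hwn] at h1
    exact le_of_pow_le_pow_left₀ hn.ne' hk'.le h1
  have hbw : ((edgeBoundary A).card : ℝ) ≤ L * (n * (A.card / w)) := by
    refine hA.trans (mul_le_mul_of_nonneg_left ?_ hL0.le)
    refine (mBound_le hn hk A).trans (le_of_eq ?_)
    rw [Real.rpow_sub ha, Real.rpow_one]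
    ring
  rcases lt_or_ge w R with hwR | hwR
  · -- a point
    obtain ⟨x, hx⟩ := hne
    refine ⟨fun i => {x i}, ?_, ?_⟩
    · refine hsmall.trans ?_
      have hcard : (Fintype.piFinset fun i => ({x i} : Finset (Fin k))).card = 1 := by
        rw [Fintype.card_piFinset]
        simp
      unfold meas
      rw [hcard, div_mul_eq_mul_div]
      refine div_le_div_of_nonneg_right ?_ (by positivity)
      rw [← hwn, ← mul_pow, Nat.cast_one]
      refine pow_le_one₀ (by positivity) ?_
      rw [← div_eq_mul_inv, div_le_one hR0]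
      exact hwR.le
    · have hS : (Fintype.piFinset fun i => ({x i} : Finset (Fin k))) = {x} := by
        ext y
        simp only [Fintype.mem_piFinset, mem_singleton]
        exact funext_iff.symm
      rw [hS, inter_singleton_of_mem hx, card_singleton, Nat.cast_one, div_one, ← Real.exp_zero]
      refine Real.exp_le_exp.2 ?_
      rw [neg_nonpos]
      positivity
  · -- boxes
    set s : ℕ := ⌊η * w / L⌋₊ with hs
    have hv : 2 / η ≤ η * w / L := by
      rw [le_div_iff₀ hL0, div_mul_eq_mul_div, div_le_iff₀ hη]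
      have : 2 * L ≤ w * η ^ 2 := by
        have h0 : 2 * L / η ^ 2 ≤ w := hwR
        rwa [div_le_iff₀ (by positivity)] at h0
      calc 2 * L ≤ w * η ^ 2 := this
        _ = η * w * η := by ring
    have hη8 : 8 ≤ 1 / η := by
      rw [le_div_iff₀ hη]
      linarith
    have hs1 : η * w / L - 1 < s := Nat.sub_one_lt_floor _
    have hs2 : (s : ℝ) ≤ η * w / L := Nat.floor_le (by positivity)
    have h2η : 2 / η = 1 / η + 1 / η := by ring
    have hsη : 1 / η ≤ s := by linarith
    have hsη' : 1 ≤ s * η := by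
      rwa [div_le_iff₀ hη] at hsη
    have hs0' : (0 : ℝ) < s := by linarith
    have hs0 : 0 < s := Nat.cast_pos.1 hs0'
    have hsw : (s : ℝ) ≤ η * w := by
      exact hs2.trans (div_le_self (by positivity) hL)
    have hsk : (s : ℝ) ≤ η * k := hsw.trans (mul_le_mul_of_nonneg_left hwk hη.le)
    have hsk' : s ≤ k := by
      have : (s : ℝ) ≤ k := hsk.trans (by
        calc η * k ≤ 1 * k := mul_le_mul_of_nonneg_right (by linarith) hk'.le
          _ = k := one_mul _)
      exact_mod_cast this
    set q : ℕ := k / s with hq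
    have hq0 : 0 < q := Nat.div_pos hsk' hs0
    have hq0' : (0 : ℝ) < q := Nat.cast_pos.2 hq0
    have hsq : s ≤ k / q := by
      rw [Nat.le_div_iff_mul_le hq0, hq]
      exact Nat.mul_div_le k s
    have hqk : (k : ℝ) < (q + 1) * s := by
      have : k < (q + 1) * s := by
        rw [hq, mul_comm]
        exact Nat.lt_mul_div_succ k hs0
      exact_mod_cast this
    -- upper bound of the sides
    set s2 : ℕ := k / q + 1 with hs2'
    have hs2le : (s2 : ℝ) ≤ s * (1 + 3 * η) := by
      have h1 : ((k / q : ℕ) : ℝ) ≤ (k : ℝ) / q := Nat.cast_div_le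
      have h2 : (k : ℝ) / q ≤ s * (1 + 2 * η) := by
        rw [div_le_iff₀ hq0']
        -- `k < q s + s`, `s ≤ η k`, so `k (1 - η) < q s`
        have h3 : (k : ℝ) * (1 - η) ≤ q * s := by
          have e1 : ((q : ℝ) + 1) * s = q * s + s := by ring
          have e2 : (k : ℝ) * (1 - η) = k - η * k := by ring
          rw [e1] at hqk
          rw [e2]
          linarith
        have h4 : (k : ℝ) ≤ (k * (1 - η)) * (1 + 2 * η) := by
          have e3 : (1 : ℝ) ≤ (1 - η) * (1 + 2 * η) := by
            have : (1 - η) * (1 + 2 * η) = 1 + η * (1 - 2 * η) := by ring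
            rw [this]
            have : 0 ≤ η * (1 - 2 * η) := mul_nonneg hη.le (by linarith)
            linarith
          calc (k : ℝ) = k * 1 := (mul_one _).symm
            _ ≤ k * ((1 - η) * (1 + 2 * η)) := mul_le_mul_of_nonneg_left e3 hk'.le
            _ = (k * (1 - η)) * (1 + 2 * η) := by ring
        calc (k : ℝ) ≤ (k * (1 - η)) * (1 + 2 * η) := h4
          _ ≤ (q * s) * (1 + 2 * η) := mul_le_mul_of_nonneg_right h3 (by positivity)
          _ = s * (1 + 2 * η) * q := by ring
      rw [hs2']
      push_cast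
      have e5 : (s : ℝ) * (1 + 3 * η) = s * (1 + 2 * η) + s * η := by ring
      rw [e5]
      linarith
    have hs20 : (0 : ℝ) < s2 := by
      rw [hs2']
      positivity
    have x0 : Fin k := ⟨0, hk⟩
    have hfib : ∀ t : Fin k, s ≤ (univ.filter fun t' => blk k q t' = blk k q t).card := fun t =>
      hsq.trans (card_fiber hq0 t).1
    -- the boxes
    have hex : ∃ x ∈ A, Real.exp (-(8 * η * n)) ≤
        ((A ∩ Fintype.piFinset (box (blk k q) x)).card : ℝ) /
          ((Fintype.piFinset (box (blk k q) x)).card : ℝ) := by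
      by_contra hcon
      push Not at hcon
      set M : ℝ := Real.exp (-(8 * η * n)) * (s2 : ℝ) ^ n with hM
      have hM0 : 0 < M := by positivity
      have hbox : ∀ y, ((boxPart (blk k q) A y).card : ℝ) ≤ M := by
        intro y
        rcases (boxPart (blk k q) A y).eq_empty_or_nonempty with h0 | ⟨x, hx⟩
        · rw [h0, card_empty, Nat.cast_zero]
          exact hM0.le
        · obtain ⟨hx1, hx2⟩ := mem_filter.1 hx
          have h1 := hcon x hx1
          rw [inter_box, hx2] at h1
          have hpos : (0 : ℝ) < ((Fintype.piFinset (box (blk k q) x)).card : ℝ) := by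
            have : (Fintype.piFinset (box (blk k q) x)).Nonempty :=
              ⟨x, Fintype.mem_piFinset.2 fun i => mem_filter.2 ⟨mem_univ _, rfl⟩⟩
            exact_mod_cast this.card_pos
          rw [div_lt_iff₀ hpos] at h1
          refine h1.le.trans (mul_le_mul_of_nonneg_left ?_ (Real.exp_pos _).le)
          have h2 : (Fintype.piFinset (box (blk k q) x)).card ≤ s2 ^ n := by
            rw [Fintype.card_piFinset]
            calc ∏ i, (box (blk k q) x i).card ≤ ∏ _i : Fin n, s2 :=
                  prod_le_prod' fun i _ => (card_fiber hq0 (x i)).2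
              _ = s2 ^ n := by rw [prod_const, card_univ, Fintype.card_fin]
          exact_mod_cast h2
      have hmain := blocks_ineq (blk_mono k q) x0 hs0 hfib A hM0 hbox
      have hMn : M ^ (-(1 / (n : ℝ))) = Real.exp (8 * η) / s2 := by
        rw [hM, Real.mul_rpow (Real.exp_pos _).le (by positivity), ← Real.exp_mul,
          ← Real.rpow_natCast, ← Real.rpow_mul hs20.le]
        have e1 : -(8 * η * n) * -(1 / (n : ℝ)) = 8 * η := by field_simp
        have e2 : (n : ℝ) * -(1 / (n : ℝ)) = -1 := by field_simp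
        rw [e1, e2, Real.rpow_neg_one, div_eq_mul_inv]
      rw [hMn] at hmain
      have h1 : (n : ℝ) * A.card * (Real.exp (8 * η) / s2) ≤
          n * A.card * (1 / s + L / w) := by
        calc (n : ℝ) * A.card * (Real.exp (8 * η) / s2)
            ≤ n * A.card / s + (edgeBoundary A).card := hmain
          _ ≤ n * A.card / s + L * (n * (A.card / w)) := by linarith
          _ = n * A.card * (1 / s + L / w) := by ring
      have h2 : Real.exp (8 * η) / s2 ≤ 1 / s + L / w :=
        le_of_mul_le_mul_left h1 (by positivity)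
      rw [div_le_iff₀ hs20] at h2
      have h3 : (1 / (s : ℝ) + L / w) * s2 ≤ (1 + η) / s * (s * (1 + 3 * η)) := by
        have h4 : 1 / (s : ℝ) + L / w ≤ (1 + η) / s := by
          rw [add_div]
          have : L / w ≤ η / s := by
            rw [div_le_div_iff₀ hw0 hs0']
            have := hs2
            rw [le_div_iff₀ hL0] at this
            linarith
          linarith
        exact mul_le_mul h4 hs2le hs20.le (by positivity)
      have h5 : (1 + η) / (s : ℝ) * (s * (1 + 3 * η)) = (1 + η) * (1 + 3 * η) := by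
        field_simp
      have h6 : 8 * η + 1 ≤ Real.exp (8 * η) := Real.add_one_le_exp _
      rw [h5] at h3
      have h7 : (1 + η) * (1 + 3 * η) = 1 + 4 * η + 3 * η * η := by ring
      rw [h7] at h3
      have h8 : 3 * η * η ≤ 3 * η * 1 := mul_le_mul_of_nonneg_left (by linarith) (by positivity)
      linarith
    obtain ⟨x, _, hx⟩ := hex
    refine ⟨box (blk k q) x, ?_, hx⟩
    refine hsmall.trans ?_
    have hcard : (s : ℝ) ^ n ≤ ((Fintype.piFinset (box (blk k q) x)).card : ℝ) := by
      have : s ^ n ≤ (Fintype.piFinset (box (blk k q) x)).card := by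
        rw [Fintype.card_piFinset]
        calc s ^ n = ∏ _i : Fin n, s := by rw [prod_const, card_univ, Fintype.card_fin]
          _ ≤ ∏ i, (box (blk k q) x i).card := prod_le_prod' fun i _ => hfib (x i)
      exact_mod_cast this
    unfold meas
    rw [div_mul_eq_mul_div]
    refine div_le_div_of_nonneg_right (le_trans ?_ hcard) (by positivity)
    rw [← hwn, ← mul_pow]
    refine pow_le_pow_left₀ (by positivity) ?_ n
    -- `w / R ≤ η w / (2 L) ≤ s`
    have h1 : R⁻¹ ≤ η / (2 * L) := by
      rw [inv_le_comm₀ hR0 (by positivity), inv_div]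
      exact hRη
    have h2 : w * R⁻¹ ≤ w * (η / (2 * L)) := mul_le_mul_of_nonneg_left h1 hw0.le
    have h3 : w * (η / (2 * L)) = (η * w / L) / 2 := by
      field_simp
    have h4 : (2 : ℝ) ≤ η * w / L := by linarith
    linarith

end Pool.Agent.Grid
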