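import Pool.Agent.Lib.MP_d0893a_co.Blocks

/-!
# From the grid `[2^m]^n` to the discrete cube (problem MP_d0893a_co)
-/

open Finset

namespace Pool.Agent.Grid

variable {k n : ℕ}

/-- every edge of the grid has the form `{x, x + e_i}` -/
theorem adj_cases {x y : Fin n → Fin k} (h : (gridGraph k n).Adj x y) :
    (∃ (i : Fin n) (hi : (x i : ℕ) + 1 < k), y = nxt x i hi) ∨
      (∃ (i : Fin n) (hi : (y i : ℕ) + 1 < k), x = nxt y i hi) := by
  have h1 : ∑ i, |(((x i : ℕ) : ℤ) - ((y i : ℕ) : ℤ))| = 1 := h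
  have hex : ∃ i, |(((x i : ℕ) : ℤ) - ((y i : ℕ) : ℤ))| ≠ 0 := by
    by_contra hcon
    push Not at hcon
    rw [sum_eq_zero fun i _ => hcon i] at h1
    exact absurd h1 (by norm_num)
  obtain ⟨i, hi⟩ := hex
  have h2 : |(((x i : ℕ) : ℤ) - ((y i : ℕ) : ℤ))|
      + ∑ j ∈ univ.erase i, |(((x j : ℕ) : ℤ) - ((y j : ℕ) : ℤ))| = 1 := by
    rw [add_sum_erase univ (fun j => |(((x j : ℕ) : ℤ) - ((y j : ℕ) : ℤ))|) (mem_univ i)]
    exact h1
  have h3 : 0 ≤ ∑ j ∈ univ.erase i, |(((x j : ℕ) : ℤ) - ((y j : ℕ) : ℤ))| :=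
    sum_nonneg fun _ _ => abs_nonneg _
  have h4 : 0 < |(((x i : ℕ) : ℤ) - ((y i : ℕ) : ℤ))| := lt_of_le_of_ne (abs_nonneg _) (Ne.symm hi)
  have h5 : |(((x i : ℕ) : ℤ) - ((y i : ℕ) : ℤ))| = 1 := by omega
  have h6 : ∑ j ∈ univ.erase i, |(((x j : ℕ) : ℤ) - ((y j : ℕ) : ℤ))| = 0 := by omega
  have h7 : ∀ j, j ≠ i → x j = y j := by
    intro j hj
    have := (sum_eq_zero_iff_of_nonneg (fun _ _ => abs_nonneg _)).1 h6 j
      (mem_erase.2 ⟨hj, mem_univ _⟩)
    rw [abs_eq_zero] at this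
    exact Fin.ext (by omega)
  have hxk := (x i).2
  have hyk := (y i).2
  rcases (abs_eq (by norm_num : (0 : ℤ) ≤ 1)).1 h5 with h8 | h8
  · right
    have hlt : (y i : ℕ) + 1 < k := by omega
    refine ⟨i, hlt, ?_⟩
    funext j
    by_cases hj : j = i
    · subst hj
      rw [nxt, Function.update_self]
      exact Fin.ext (by simp; omega)
    · rw [nxt, Function.update_of_ne hj, h7 j hj]
  · left
    have hlt : (x i : ℕ) + 1 < k := by omega
    refine ⟨i, hlt, ?_⟩
    funext j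
    by_cases hj : j = i
    · subst hj
      rw [nxt, Function.update_self]
      exact Fin.ext (by simp; omega)
    · rw [nxt, Function.update_of_ne hj, h7 j hj]

/-- the number of cut edges is the size of the edge boundary (upper bound) -/
theorem card_boundary_le (A : Finset (Fin n → Fin k)) :
    (edgeBoundary A).card ≤ ∑ i, (cut A i).card := by
  classical
  rw [← card_sigma]
  refine (card_le_card (t := (univ.sigma fun i => cut A i).image
    (fun p : (_ : Fin n) × (Fin n → Fin k) =>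
      if h : (p.2 p.1 : ℕ) + 1 < k then s(p.2, nxt p.2 p.1 h) else s(p.2, p.2))) ?_).trans
    card_image_le
  intro e he
  rw [edgeBoundary, mem_filter] at he
  obtain ⟨he1, x, hx, y, hy, rfl⟩ := he
  rw [SimpleGraph.mem_edgeFinset, SimpleGraph.mem_edgeSet] at he1
  rcases adj_cases he1 with ⟨i, hi, rfl⟩ | ⟨i, hi, rfl⟩
  · refine mem_image.2 ⟨⟨i, x⟩, mem_sigma.2 ⟨mem_univ _, mem_cut.2 ⟨hi, ?_⟩⟩, ?_⟩
    · intro h
      exact hy (h.1 hx)
    · simp only [dif_pos hi]
  · refine mem_image.2 ⟨⟨i, y⟩, mem_sigma.2 ⟨mem_univ _, mem_cut.2 ⟨hi, ?_⟩⟩, ?_⟩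
    · intro h
      exact hy (h.2 hx)
    · simp only [dif_pos hi]
      exact Sym2.eq_swap

/-- pairs at distance `d` in direction `i` that are separated by `B` -/
noncomputable def jump (B : Finset (Fin n → Fin k)) (i : Fin n) (d : ℕ) :
    Finset (Fin n → Fin k) :=
  open Classical in
  univ.filter fun x => ∃ h : (x i : ℕ) + d < k,
    ¬ (x ∈ B ↔ Function.update x i ⟨(x i : ℕ) + d, h⟩ ∈ B)

theorem card_jump_le (B : Finset (Fin n → Fin k)) (i : Fin n) (d : ℕ) :
    (jump B i d).card ≤ d * (cut B i).card := by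
  classical
  have hsub : jump B i d ⊆ ((cut B i) ×ˢ range d).image
      (fun p : (Fin n → Fin k) × ℕ =>
        Function.update p.1 i ⟨(p.1 i : ℕ) - p.2, lt_of_le_of_lt (Nat.sub_le _ _) (p.1 i).2⟩) := by
    intro x hx
    rw [jump, mem_filter] at hx
    obtain ⟨_, h, hx⟩ := hx
    set p : ℕ → Prop := fun t => ∃ ht : t < k, Function.update x i ⟨t, ht⟩ ∈ B with hp
    have hp1 : p (x i : ℕ) ↔ x ∈ B := by
      constructor
      · rintro ⟨_, h3⟩
        simpa using h3
      · intro h3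
        exact ⟨(x i).2, by simpa using h3⟩
    have hp2 : p ((x i : ℕ) + d) ↔ Function.update x i ⟨(x i : ℕ) + d, h⟩ ∈ B :=
      ⟨fun ⟨_, h3⟩ => h3, fun h3 => ⟨h, h3⟩⟩
    obtain ⟨t, h1, h2, h3⟩ := exists_step (Nat.le_add_right (x i : ℕ) d)
      (fun hh => hx (hp1.symm.trans (hh.trans hp2)))
    have ht1 : t + 1 < k := by omega
    have ht : t < k := by omega
    have hcut : Function.update x i ⟨t, ht⟩ ∈ cut B i := by
      refine mem_cut.2 ⟨by simpa using ht1, ?_⟩
      intro hiff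
      apply h3
      have e : nxt (Function.update x i ⟨t, ht⟩) i (by simpa using ht1)
          = Function.update x i ⟨t + 1, ht1⟩ := by
        simp [nxt]
      rw [e] at hiff
      exact ⟨fun ⟨_, h6⟩ => ⟨ht1, hiff.1 h6⟩, fun ⟨_, h6⟩ => ⟨ht, hiff.2 h6⟩⟩
    refine mem_image.2 ⟨(Function.update x i ⟨t, ht⟩, t - (x i : ℕ)),
      mem_product.2 ⟨hcut, mem_range.2 (by omega)⟩, ?_⟩
    simp only [Function.update_self, Function.update_idem]
    have e2 : (⟨t - (t - (x i : ℕ)), lt_of_le_of_lt (Nat.sub_le _ _) ht⟩ : Fin k) = x i :=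
      Fin.ext (by simp only; omega)
    rw [e2, Function.update_eq_self]
  refine (card_le_card hsub).trans (card_image_le.trans ?_)
  rw [card_product, card_range, mul_comm]

/-! ### binary digits -/

/-- the identification of `{0,1}^(nm)` with `[2^m]^n` -/
def dig (n m : ℕ) : (Fin (n * m) → Fin 2) ≃ (Fin n → Fin (2 ^ m)) :=
  ((Equiv.arrowCongr finProdFinEquiv.symm (Equiv.refl (Fin 2))).trans
    (Equiv.curry (Fin n) (Fin m) (Fin 2))).trans
    (Equiv.arrowCongr (Equiv.refl (Fin n)) finFunctionFinEquiv)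

theorem dig_apply {m : ℕ} (z : Fin (n * m) → Fin 2) (i : Fin n) :
    dig n m z i = finFunctionFinEquiv (fun j => z (finProdFinEquiv (i, j))) := rfl

theorem dig_val {m : ℕ} (z : Fin (n * m) → Fin 2) (i : Fin n) :
    ((dig n m z i : Fin (2 ^ m)) : ℕ) = ∑ j : Fin m, (z (finProdFinEquiv (i, j)) : ℕ) * 2 ^ (j : ℕ) := by
  rw [dig_apply, finFunctionFinEquiv_apply]

/-- adding `1` to a digit -/
theorem dig_nxt {m : ℕ} (z : Fin (n * m) → Fin 2) (i : Fin n) (j : Fin m)
    (h : (z (finProdFinEquiv (i, j)) : ℕ) + 1 < 2) :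
    ∃ h' : ((dig n m z i : Fin (2 ^ m)) : ℕ) + 2 ^ (j : ℕ) < 2 ^ m,
      dig n m (nxt z (finProdFinEquiv (i, j)) h) =
        Function.update (dig n m z) i ⟨((dig n m z i : Fin (2 ^ m)) : ℕ) + 2 ^ (j : ℕ), h'⟩ := by
  have key : ((dig n m (nxt z (finProdFinEquiv (i, j)) h) i : Fin (2 ^ m)) : ℕ)
      = ((dig n m z i : Fin (2 ^ m)) : ℕ) + 2 ^ (j : ℕ) := by
    rw [dig_val, dig_val]
    rw [← add_sum_erase univ _ (mem_univ j), ← add_sum_erase univ
      (fun j => (z (finProdFinEquiv (i, j)) : ℕ) * 2 ^ (j : ℕ)) (mem_univ j)]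
    have e1 : ∑ x ∈ univ.erase j, (nxt z (finProdFinEquiv (i, j)) h (finProdFinEquiv (i, x)) : ℕ)
          * 2 ^ (x : ℕ)
        = ∑ x ∈ univ.erase j, (z (finProdFinEquiv (i, x)) : ℕ) * 2 ^ (x : ℕ) := by
      refine sum_congr rfl fun x hx => ?_
      have : finProdFinEquiv (i, x) ≠ finProdFinEquiv (i, j) := by
        intro h2
        have h3 := finProdFinEquiv.injective h2
        exact ne_of_mem_erase hx (Prod.mk.inj h3).2
      rw [nxt, Function.update_of_ne this]
    rw [e1]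
    simp only [nxt, Function.update_self]
    have : (z (finProdFinEquiv (i, j)) : ℕ) = 0 := by omega
    rw [this]
    ring
  have hlt : ((dig n m z i : Fin (2 ^ m)) : ℕ) + 2 ^ (j : ℕ) < 2 ^ m := by
    rw [← key]
    exact (dig n m (nxt z (finProdFinEquiv (i, j)) h) i).2
  refine ⟨hlt, ?_⟩
  funext i'
  by_cases hi : i' = i
  · subst hi
    rw [Function.update_self]
    exact Fin.ext key
  · rw [Function.update_of_ne hi, dig_apply, dig_apply]
    congr 1
    funext x
    have : finProdFinEquiv (i', x) ≠ finProdFinEquiv (i, j) := by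
      intro h2
      exact hi (Prod.mk.inj (finProdFinEquiv.injective h2)).1
    rw [nxt, Function.update_of_ne this]

/-- the set of the cube that corresponds to a set of the grid -/
noncomputable def cube {m : ℕ} (B : Finset (Fin n → Fin (2 ^ m))) : Finset (Fin (n * m) → Fin 2) :=
  univ.filter fun z => dig n m z ∈ B

theorem mem_cube {m : ℕ} {B : Finset (Fin n → Fin (2 ^ m))} {z : Fin (n * m) → Fin 2} :
    z ∈ cube B ↔ dig n m z ∈ B := by simp [cube]

theorem card_cube {m : ℕ} (B : Finset (Fin n → Fin (2 ^ m))) : (cube B).card = B.card := by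
  refine card_bij (fun z _ => dig n m z) (fun z hz => mem_cube.1 hz)
    (fun z _ z' _ h => (dig n m).injective h) ?_
  intro x hx
  exact ⟨(dig n m).symm x, mem_cube.2 (by simpa using hx), by simp⟩

theorem card_cut_cube_le {m : ℕ} (B : Finset (Fin n → Fin (2 ^ m))) (i : Fin n) (j : Fin m) :
    (cut (cube B) (finProdFinEquiv (i, j))).card ≤ 2 ^ (j : ℕ) * (cut B i).card := by
  classical
  refine (card_le_card_of_injOn (dig n m) ?_ (dig n m).injective.injOn).trans
    (card_jump_le B i (2 ^ (j : ℕ)))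
  intro z hz
  obtain ⟨h, hz'⟩ := mem_cut.1 (mem_coe.1 hz)
  obtain ⟨h', he⟩ := dig_nxt z i j h
  refine mem_coe.2 (mem_filter.2 ⟨mem_univ _, h', ?_⟩)
  rw [← he, ← mem_cube, ← mem_cube]
  exact hz'

/-- the boundary of a set in the cube -/
theorem card_boundary_cube_le {m : ℕ} (B : Finset (Fin n → Fin (2 ^ m))) :
    (edgeBoundary (cube B)).card ≤ 2 ^ m * ∑ i, (cut B i).card := by
  refine (card_boundary_le _).trans ?_
  rw [← finProdFinEquiv.sum_comp, Fintype.sum_prod_type, mul_sum]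
  refine sum_le_sum fun i _ => ?_
  calc ∑ j : Fin m, (cut (cube B) (finProdFinEquiv (i, j))).card
      ≤ ∑ j : Fin m, 2 ^ (j : ℕ) * (cut B i).card := sum_le_sum fun j _ => card_cut_cube_le B i j
    _ = (∑ j : Fin m, 2 ^ (j : ℕ)) * (cut B i).card := by rw [sum_mul]
    _ ≤ 2 ^ m * (cut B i).card := by
        refine Nat.mul_le_mul_right _ ?_
        rw [Fin.sum_univ_eq_sum_range (fun j => 2 ^ j) m, Nat.geomSum_eq le_rfl]
        simp

/-- the factors of a product set of the cube, seen in `[2^m]` -/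
noncomputable def fac {m : ℕ} (S : Fin (n * m) → Finset (Fin 2)) (i : Fin n) : Finset (Fin (2 ^ m)) :=
  univ.filter fun t => ∀ j : Fin m, (finFunctionFinEquiv.symm t) j ∈ S (finProdFinEquiv (i, j))

theorem cube_fac {m : ℕ} (S : Fin (n * m) → Finset (Fin 2)) :
    cube (Fintype.piFinset (fac S)) = Fintype.piFinset S := by
  ext z
  rw [mem_cube, Fintype.mem_piFinset, Fintype.mem_piFinset]
  simp only [fac, mem_filter, mem_univ, true_and, dig_apply, Equiv.symm_apply_apply]
  constructor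
  · intro h p
    have := h (finProdFinEquiv.symm p).1 (finProdFinEquiv.symm p).2
    rwa [Prod.mk.eta, Equiv.apply_symm_apply] at this
  · intro h i j
    exact h _

theorem cube_inter {m : ℕ} (B C : Finset (Fin n → Fin (2 ^ m))) :
    cube (B ∩ C) = cube B ∩ cube C := by
  ext z
  simp [mem_cube]

end Pool.Agent.Grid
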