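import Pool.Agent.Lib.MP_d0893a_co.Defs

/-!
# A Loomis-Whitney type inequality (problem MP_d0893a_co)
-/

open Finset

namespace Pool.Agent.Grid

section LW

variable {X : Type*} [DecidableEq X]

/-- number of lines in direction `i` that meet `A` -/
def pr {n : ℕ} (x0 : X) (A : Finset (Fin n → X)) (i : Fin n) : ℕ :=
  (A.image (fun x => Function.update x i x0)).card

/-- slice of `A` at the value `a` of the first coordinate -/
def sl {n : ℕ} (A : Finset (Fin (n + 1) → X)) (a : X) : Finset (Fin n → X) :=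
  (A.filter (fun x => x 0 = a)).image Fin.tail

theorem mem_sl {n : ℕ} {A : Finset (Fin (n + 1) → X)} {a : X} {y : Fin n → X} :
    y ∈ sl A a ↔ (Fin.cons a y : Fin (n + 1) → X) ∈ A := by
  simp only [sl, mem_image, mem_filter]
  constructor
  · rintro ⟨x, ⟨hx, rfl⟩, rfl⟩
    rwa [Fin.cons_self_tail]
  · intro h
    exact ⟨Fin.cons a y, ⟨h, Fin.cons_zero _ _⟩, Fin.tail_cons _ _⟩

theorem card_sl {n : ℕ} (A : Finset (Fin (n + 1) → X)) (a : X) :
    (sl A a).card = (A.filter (fun x => x 0 = a)).card := by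
  refine card_image_of_injOn ?_
  intro x hx y hy h
  have hx' : x 0 = a := (mem_filter.1 (mem_coe.1 hx)).2
  have hy' : y 0 = a := (mem_filter.1 (mem_coe.1 hy)).2
  rw [← Fin.cons_self_tail x, ← Fin.cons_self_tail y, hx', hy', h]

theorem sum_card_sl {n : ℕ} (A : Finset (Fin (n + 1) → X)) :
    ∑ a ∈ A.image (fun x => x 0), (sl A a).card = A.card := by
  simp_rw [card_sl]
  exact (card_eq_sum_card_image (fun x : Fin (n + 1) → X => x 0) A).symm

theorem card_sl_le {n : ℕ} (x0 : X) (A : Finset (Fin (n + 1) → X)) (a : X) :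
    (sl A a).card ≤ pr x0 A 0 := by
  refine card_le_card_of_injOn (fun y => (Fin.cons x0 y : Fin (n + 1) → X)) ?_ ?_
  · intro y hy
    have hy' := mem_sl.1 (mem_coe.1 hy)
    refine mem_coe.2 (mem_image.2 ⟨Fin.cons a y, hy', ?_⟩)
    exact Fin.update_cons_zero _ _ _
  · intro y _ y' _ h
    exact (Fin.cons_injective2 h).2

theorem sum_pr_sl {n : ℕ} (x0 : X) (A : Finset (Fin (n + 1) → X)) (i : Fin n) :
    ∑ a ∈ A.image (fun x => x 0), pr x0 (sl A a) i = pr x0 A i.succ := by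
  unfold pr
  rw [card_eq_sum_card_fiberwise (f := fun x : Fin (n + 1) → X => x 0)
    (t := A.image (fun x => x 0)) (s := A.image (fun x => Function.update x i.succ x0))]
  · refine sum_congr rfl fun a _ => ?_
    refine card_bij (fun y _ => (Fin.cons a y : Fin (n + 1) → X)) ?_ ?_ ?_
    · intro y hy
      obtain ⟨z, hz, rfl⟩ := mem_image.1 hy
      rw [mem_filter, mem_image]
      refine ⟨⟨Fin.cons a z, mem_sl.1 hz, ?_⟩, Fin.cons_zero _ _⟩
      exact (Fin.cons_update _ _ _ _).symm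
    · intro y _ y' _ h
      exact (Fin.cons_injective2 h).2
    · intro x hx
      obtain ⟨hx1, hx2⟩ := mem_filter.1 hx
      obtain ⟨z, hz, rfl⟩ := mem_image.1 hx1
      have hz0 : z 0 = a := by
        rw [← hx2, Function.update_of_ne (Fin.succ_ne_zero i).symm]
      refine ⟨Function.update (Fin.tail z) i x0, mem_image.2 ⟨Fin.tail z, ?_, rfl⟩, ?_⟩
      · rw [mem_sl, ← hz0, Fin.cons_self_tail]
        exact hz
      · rw [Fin.cons_update, ← hz0, Fin.cons_self_tail]
  · intro x hx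
    obtain ⟨z, hz, rfl⟩ := mem_image.1 (mem_coe.1 hx)
    refine mem_coe.2 (mem_image.2 ⟨z, hz, ?_⟩)
    simp only
    rw [Function.update_of_ne (Fin.succ_ne_zero i).symm]

theorem real_ineq {n : ℕ} {P S M : ℝ} (hP : 1 ≤ P) (hS : 0 < S) (hSM : S ≤ M) :
    ((n : ℝ) + 1) * S * M ^ (-(1 / ((n : ℝ) + 1))) ≤ P + n * S * P ^ (-(1 / (n : ℝ))) := by
  have hM : 0 < M := hS.trans_le hSM
  have hP0 : 0 < P := by linarith
  rcases Nat.eq_zero_or_pos n with rfl | hn
  · simp only [Nat.cast_zero, zero_add, div_one, one_mul, zero_mul, add_zero]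
    rw [Real.rpow_neg_one]
    have : S * M⁻¹ ≤ 1 := by
      rw [← div_eq_mul_inv, div_le_one hM]
      exact hSM
    linarith
  · have hn' : (0 : ℝ) < n := Nat.cast_pos.2 hn
    have hn1 : (0 : ℝ) < (n : ℝ) + 1 := by positivity
    have h1 : M ^ (-(1 / ((n : ℝ) + 1))) ≤ S ^ (-(1 / ((n : ℝ) + 1))) :=
      Real.rpow_le_rpow_of_nonpos hS hSM (by rw [neg_nonpos]; positivity)
    have h2 := Real.geom_mean_le_arith_mean2_weighted (w₁ := 1 / ((n : ℝ) + 1))
      (w₂ := (n : ℝ) / ((n : ℝ) + 1)) (p₁ := P) (p₂ := S * P ^ (-(1 / (n : ℝ))))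
      (by positivity) (by positivity) hP0.le (by positivity) (by field_simp; ring)
    have h3 : P ^ (1 / ((n : ℝ) + 1)) * (S * P ^ (-(1 / (n : ℝ)))) ^ ((n : ℝ) / ((n : ℝ) + 1))
        = S * S ^ (-(1 / ((n : ℝ) + 1))) := by
      rw [Real.mul_rpow hS.le (by positivity), ← Real.rpow_mul hP0.le]
      have e1 : -(1 / (n : ℝ)) * ((n : ℝ) / ((n : ℝ) + 1)) = -(1 / ((n : ℝ) + 1)) := by
        field_simp
      rw [e1]
      have e2 : P ^ (1 / ((n : ℝ) + 1)) * P ^ (-(1 / ((n : ℝ) + 1))) = 1 := by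
        rw [← Real.rpow_add hP0, add_neg_cancel, Real.rpow_zero]
      have e3 : S ^ ((n : ℝ) / ((n : ℝ) + 1)) = S * S ^ (-(1 / ((n : ℝ) + 1))) := by
        nth_rewrite 2 [← Real.rpow_one S]
        rw [← Real.rpow_add hS]
        congr 1
        field_simp
        ring
      calc P ^ (1 / ((n : ℝ) + 1)) * (S ^ ((n : ℝ) / ((n : ℝ) + 1)) * P ^ (-(1 / ((n : ℝ) + 1))))
          = (P ^ (1 / ((n : ℝ) + 1)) * P ^ (-(1 / ((n : ℝ) + 1)))) * S ^ ((n : ℝ) / ((n : ℝ) + 1)) := by
            ring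
        _ = _ := by rw [e2, e3, one_mul]
    rw [h3] at h2
    have h4 : ((n : ℝ) + 1) * (1 / ((n : ℝ) + 1) * P
        + (n : ℝ) / ((n : ℝ) + 1) * (S * P ^ (-(1 / (n : ℝ)))))
        = P + n * S * P ^ (-(1 / (n : ℝ))) := by
      field_simp
    rw [← h4, mul_assoc]
    refine mul_le_mul_of_nonneg_left ?_ hn1.le
    exact (mul_le_mul_of_nonneg_left h1 hS.le).trans h2

/-- the sum of the numbers of lines meeting `A` -/
theorem lw (x0 : X) : ∀ (n : ℕ) (A : Finset (Fin n → X)) (M : ℝ), 0 < M → (A.card : ℝ) ≤ M →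
    (n : ℝ) * A.card * M ^ (-(1 / (n : ℝ))) ≤ ∑ i, (pr x0 A i : ℝ)
  | 0, A, M, _, _ => by simp
  | n + 1, A, M, hM, hA => by
    rcases A.eq_empty_or_nonempty with rfl | hne
    · simp only [card_empty, Nat.cast_zero, mul_zero, zero_mul]
      exact sum_nonneg fun i _ => Nat.cast_nonneg _
    have hP : 1 ≤ pr x0 A 0 := card_pos.2 (hne.image _)
    have hP' : (1 : ℝ) ≤ (pr x0 A 0 : ℝ) := by exact_mod_cast hP
    have hS : (0 : ℝ) < A.card := by exact_mod_cast hne.card_pos
    rw [Fin.sum_univ_succ]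
    have key : (n : ℝ) * A.card * (pr x0 A 0 : ℝ) ^ (-(1 / (n : ℝ)))
        ≤ ∑ i : Fin n, (pr x0 A i.succ : ℝ) := by
      calc (n : ℝ) * A.card * (pr x0 A 0 : ℝ) ^ (-(1 / (n : ℝ)))
          = ∑ a ∈ A.image (fun x => x 0), (n : ℝ) * (sl A a).card
              * (pr x0 A 0 : ℝ) ^ (-(1 / (n : ℝ))) := by
            rw [← sum_card_sl A]
            push_cast
            rw [mul_sum, sum_mul]
        _ ≤ ∑ a ∈ A.image (fun x => x 0), ∑ i, (pr x0 (sl A a) i : ℝ) := by
            refine sum_le_sum fun a _ => lw x0 n (sl A a) _ (by linarith) ?_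
            exact_mod_cast card_sl_le x0 A a
        _ = ∑ i : Fin n, (pr x0 A i.succ : ℝ) := by
            rw [sum_comm]
            refine sum_congr rfl fun i _ => ?_
            rw [← sum_pr_sl x0 A i]
            push_cast
            rfl
    have h := real_ineq (n := n) hP' hS hA
    push_cast
    linarith

end LW

end Pool.Agent.Grid
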