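import Pool.Agent.Lib.MP_d0893a_co.Small
import Pool.Agent.Lib.MP_d0893a_co.Jump
import Pool.Agent.Lib.MP_d0893a_co.Blow

/-!
# Reduction of the density increment problem to the discrete cube (problem MP_d0893a_co)
-/

open Finset

namespace Pool.Agent.Grid

variable {k n : ℕ}

/-! ### bounds for `m(A)` -/

theorem rpow_identity {a K : ℝ} (ha : 0 < a) (hK : 0 < K) {n r : ℕ} (hr : 0 < r) :
    a ^ (1 - 1 / (r : ℝ)) * r * K ^ ((n : ℝ) / r - 1)
      = a / K * (r * Real.exp (Real.log (1 / (a / K ^ n)) / r)) := by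
  have hr' : (r : ℝ) ≠ 0 := by exact_mod_cast hr.ne'
  have h1 : a ^ (1 - 1 / (r : ℝ)) = a * Real.exp (-(Real.log a / r)) := by
    rw [Real.rpow_sub ha, Real.rpow_one, Real.rpow_def_of_pos ha, Real.exp_neg, ← div_eq_mul_inv]
    congr 2
    ring
  have h2 : K ^ ((n : ℝ) / r - 1) = Real.exp (n * Real.log K / r) / K := by
    rw [Real.rpow_sub hK, Real.rpow_one, Real.rpow_def_of_pos hK]
    congr 2
    ring
  have h3 : Real.log (1 / (a / K ^ n)) = n * Real.log K - Real.log a := by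
    rw [one_div_div, Real.log_div (by positivity) ha.ne', Real.log_pow]
  rw [h1, h2, h3]
  have h4 : (n * Real.log K - Real.log a) / r = -(Real.log a / r) + n * Real.log K / r := by ring
  rw [h4, Real.exp_add]
  ring

theorem mBound_upper (hk : 0 < k) (A : Finset (Fin n → Fin k)) (hne : A.Nonempty)
    (h1 : Real.log (1 / meas A) ≤ n) (h069 : 0.69 ≤ Real.log (1 / meas A)) :
    mBound A ≤ 7 * Real.log (1 / meas A) * ((A.card : ℝ) / k) := by
  have ha : (0 : ℝ) < A.card := by exact_mod_cast hne.card_pos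
  have hk' : (0 : ℝ) < k := Nat.cast_pos.2 hk
  set l := Real.log (1 / meas A) with hl
  have hl0 : 0 < l := by linarith
  have hr0 : 0 < ⌈l⌉₊ := Nat.ceil_pos.2 hl0
  have hr1 : l ≤ ⌈l⌉₊ := Nat.le_ceil l
  have hr2 : (⌈l⌉₊ : ℝ) < l + 1 := Nat.ceil_lt_add_one hl0.le
  have hrn : ⌈l⌉₊ ≤ n := Nat.ceil_le.2 h1
  have hr0' : (0 : ℝ) < (⌈l⌉₊ : ℝ) := Nat.cast_pos.2 hr0
  have hle : mBound A ≤ (A.card : ℝ) ^ (1 - 1 / ((⌈l⌉₊ : ℕ) : ℝ)) * ((⌈l⌉₊ : ℕ) : ℝ)
      * (k : ℝ) ^ ((n : ℝ) / ((⌈l⌉₊ : ℕ) : ℝ) - 1) := by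
    refine csInf_le ?_ ⟨⌈l⌉₊, ⟨hr0, hrn⟩, rfl⟩
    refine ⟨0, ?_⟩
    rintro _ ⟨r, _, rfl⟩
    positivity
  rw [rpow_identity ha hk' hr0] at hle
  refine hle.trans ?_
  have e1 : Real.exp (Real.log (1 / ((A.card : ℝ) / (k : ℝ) ^ n)) / ((⌈l⌉₊ : ℕ) : ℝ)) ≤ 2.72 := by
    have h2 : Real.log (1 / ((A.card : ℝ) / (k : ℝ) ^ n)) / ((⌈l⌉₊ : ℕ) : ℝ) ≤ 1 := by
      rw [div_le_one hr0']
      exact hr1
    refine (Real.exp_le_exp.2 h2).trans ?_
    have := Real.exp_one_lt_d9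
    linarith
  have e2 : ((⌈l⌉₊ : ℕ) : ℝ) * Real.exp (Real.log (1 / ((A.card : ℝ) / (k : ℝ) ^ n)) / ((⌈l⌉₊ : ℕ) : ℝ))
      ≤ 7 * l := by
    calc ((⌈l⌉₊ : ℕ) : ℝ) * Real.exp (Real.log (1 / ((A.card : ℝ) / (k : ℝ) ^ n)) / ((⌈l⌉₊ : ℕ) : ℝ))
        ≤ (l + 1) * 2.72 := mul_le_mul hr2.le e1 (Real.exp_pos _).le (by linarith)
      _ ≤ 7 * l := by linarith
  calc (A.card : ℝ) / k * (((⌈l⌉₊ : ℕ) : ℝ)
        * Real.exp (Real.log (1 / ((A.card : ℝ) / (k : ℝ) ^ n)) / ((⌈l⌉₊ : ℕ) : ℝ)))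
      ≤ (A.card : ℝ) / k * (7 * l) := mul_le_mul_of_nonneg_left e2 (by positivity)
    _ = 7 * l * ((A.card : ℝ) / k) := by ring

theorem mBound_lower (hk : 0 < k) (hn : 0 < n) (A : Finset (Fin n → Fin k)) (hne : A.Nonempty) :
    (A.card : ℝ) / k * Real.log (1 / meas A) ≤ mBound A := by
  have ha : (0 : ℝ) < A.card := by exact_mod_cast hne.card_pos
  have hk' : (0 : ℝ) < k := Nat.cast_pos.2 hk
  refine le_csInf ⟨_, ⟨1, ⟨le_rfl, hn⟩, rfl⟩⟩ ?_
  rintro _ ⟨r, ⟨hr1, _⟩, rfl⟩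
  have hr0 : 0 < r := hr1
  have hr0' : (0 : ℝ) < r := Nat.cast_pos.2 hr0
  simp only
  rw [rpow_identity ha hk' hr0]
  refine mul_le_mul_of_nonneg_left ?_ (by positivity)
  have h1 := Real.add_one_le_exp (Real.log (1 / ((A.card : ℝ) / (k : ℝ) ^ n)) / r)
  calc Real.log (1 / meas A) = r * (Real.log (1 / ((A.card : ℝ) / (k : ℝ) ^ n)) / r) := by
        rw [mul_div_cancel₀ _ hr0'.ne']
        rfl
    _ ≤ _ := mul_le_mul_of_nonneg_left (by linarith) hr0'.le

/-! ### elementary estimates -/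

theorem pow_near {T K : ℝ} (hT : 0 < T) (hKT : K ≤ T) (n : ℕ) :
    T ^ n * (1 - n * K / T) ≤ (T - K) ^ n := by
  have h1 : (T - K) ^ n = T ^ n * (1 + -(K / T)) ^ n := by
    rw [← mul_pow]
    congr 1
    field_simp
    ring
  rw [h1]
  refine mul_le_mul_of_nonneg_left ?_ (by positivity)
  have h2 : -2 ≤ -(K / T) := by
    have : K / T ≤ 1 := (div_le_one hT).2 hKT
    linarith
  have h3 := one_add_mul_le_pow h2 n
  calc (1 : ℝ) - n * K / T = 1 + n * -(K / T) := by ring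
    _ ≤ _ := h3

theorem pow_near' {T K : ℝ} (hT : 0 < T) (hK : 0 ≤ K) {n : ℕ} (h : n * K / T ≤ 1 / 2) :
    (T + K) ^ n ≤ 2 * T ^ n := by
  have h1 : (T + K) ^ n = T ^ n * (K / T + 1) ^ n := by
    rw [← mul_pow]
    congr 1
    field_simp
    ring
  rw [h1, mul_comm (2 : ℝ)]
  refine mul_le_mul_of_nonneg_left ?_ (by positivity)
  have h2 : (K / T + 1) ^ n ≤ (Real.exp (K / T)) ^ n :=
    pow_le_pow_left₀ (by positivity) (Real.add_one_le_exp _) n
  refine h2.trans ?_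
  rw [← Real.exp_nat_mul]
  have h3 : (n : ℝ) * (K / T) ≤ 1 / 2 := by
    calc (n : ℝ) * (K / T) = n * K / T := by ring
      _ ≤ 1 / 2 := h
  refine (Real.exp_le_exp.2 h3).trans ?_
  have h4 : Real.exp (1 / 2) * Real.exp (1 / 2) = Real.exp 1 := by
    rw [← Real.exp_add]
    norm_num
  have h5 := Real.exp_one_lt_d9
  by_contra hcon
  push Not at hcon
  nlinarith [Real.exp_pos (1 / 2)]

/-- choice of the block structure -/
theorem exists_blocks {T : ℕ} (hk : 0 < k) (hkT : k ≤ T) (A : Finset (Fin n → Fin k)) :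
    ∃ b : Fin n → Bl k T, (∀ i a, T / k ≤ (b i).len a) ∧ (∀ i a, (b i).len a ≤ T / k + k) ∧
      (pull b A).card * k ^ n ≤ A.card * T ^ n := by
  have hq : 0 < T / k := Nat.div_pos hkT hk
  obtain ⟨j, hj⟩ := exists_pull_le hk (T / k) (T % k) hq A
  have h : ∃ b : Fin n → Bl k (k * (T / k) + T % k),
      (∀ i a, T / k ≤ (b i).len a) ∧ (∀ i a, (b i).len a ≤ T / k + k) ∧
      (pull b A).card * k ^ n ≤ A.card * (k * (T / k) + T % k) ^ n := by
    refine ⟨fun i => stdBl _ _ hq (j i), fun i a => ?_, fun i a => ?_, hj⟩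
    · rw [stdBl_len]
      exact Nat.le_add_right _ _
    · rw [stdBl_len]
      have := Nat.mod_lt T hk
      split_ifs <;> omega
  rwa [Nat.div_add_mod] at h

/-- pigeonhole over the sections -/
theorem exists_section {T : ℕ} (hk : 0 < k) (hkT : k ≤ T)
    (A : Finset (Fin n → Fin k)) (hne : A.Nonempty) (b : Fin n → Bl k T)
    (hq : ∀ i a, T / k ≤ (b i).len a) (C : Fin n → Finset (Fin T)) {δ L' L'' : ℝ}
    (hδ0 : 0 < δ) (hδ1 : δ ≤ 1)
    (hC : (T : ℝ) ^ n * meas A ^ (2 * L') ≤ (Fintype.piFinset C).card)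
    (hρ : (n : ℝ) * k / T ≤ δ / 8 * meas A ^ (1 + 2 * L'))
    (hρ' : (n : ℝ) * k / T ≤ δ / 8)
    (hL'' : meas A ^ L'' ≤ δ / 16 * meas A ^ (1 + 2 * L'))
    (hinc : (1 + δ) * (meas (pull b A)) * (Fintype.piFinset C).card
      ≤ (pull b A ∩ Fintype.piFinset C).card) :
    ∃ S : Fin n → Finset (Fin k), (Fintype.piFinset S).Nonempty ∧
      meas A ^ L'' ≤ meas (Fintype.piFinset S) ∧
      (1 + δ / 2) * meas A ≤
        ((A ∩ Fintype.piFinset S).card : ℝ) / ((Fintype.piFinset S).card : ℝ) := by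
  have hk' : (0 : ℝ) < k := Nat.cast_pos.2 hk
  have hT0 : 0 < T := hk.trans_le hkT
  have hT' : (0 : ℝ) < T := Nat.cast_pos.2 hT0
  have ha : (0 : ℝ) < A.card := by exact_mod_cast hne.card_pos
  have hα0 : 0 < meas A := by unfold meas; positivity
  set α := meas A with hα
  set c : ℝ := ((Fintype.piFinset C).card : ℝ) with hc
  set q := T / k with hqd
  set ρ : ℝ := (n : ℝ) * k / T with hρd
  have hkT' : (k : ℝ) ≤ T := by exact_mod_cast hkT
  -- `k q ≥ T - k`
  have hkq : (T : ℝ) - k ≤ k * q := by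
    have h1 := Nat.div_add_mod T k
    have h2 := Nat.mod_lt T hk
    have h3 : T ≤ k * q + k := by rw [hqd]; omega
    have h4 : (T : ℝ) ≤ k * q + k := by exact_mod_cast h3
    linarith
  have hkqT : (k : ℝ) * q ≤ T := by
    have h1 : k * q ≤ T := Nat.mul_div_le T k
    exact_mod_cast h1
  have hpow : (T : ℝ) ^ n * (1 - ρ) ≤ (k * q) ^ n :=
    (pow_near hT' hkT' n).trans (pow_le_pow_left₀ (by linarith) hkq n)
  -- lower bound for the measure of the blow-up
  have hβ : (1 - ρ) * α ≤ meas (pull b A) := by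
    have h1 : A.card * q ^ n ≤ (pull b A).card := by
      rw [card_pull]
      calc A.card * q ^ n = ∑ _x ∈ A, ∏ _i : Fin n, q := by
            rw [sum_const, prod_const, card_univ, Fintype.card_fin, smul_eq_mul]
        _ ≤ _ := sum_le_sum fun x _ => prod_le_prod' fun i _ => hq i (x i)
    have h2 : (A.card : ℝ) * (q : ℝ) ^ n ≤ (pull b A).card := by exact_mod_cast h1
    unfold meas at hα ⊢
    rw [hα, le_div_iff₀ (by positivity)]
    calc (1 - ρ) * ((A.card : ℝ) / (k : ℝ) ^ n) * (T : ℝ) ^ n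
        = ((A.card : ℝ) / (k : ℝ) ^ n) * ((T : ℝ) ^ n * (1 - ρ)) := by ring
      _ ≤ ((A.card : ℝ) / (k : ℝ) ^ n) * (k * q) ^ n :=
          mul_le_mul_of_nonneg_left hpow (by positivity)
      _ = (A.card : ℝ) * (q : ℝ) ^ n := by
          rw [mul_pow]
          field_simp
      _ ≤ _ := h2
  by_contra hcon
  push Not at hcon
  -- every section is bad
  have hsec : ∀ u : Fin n → Fin q,
      ((A ∩ Fintype.piFinset (sec b hq C u)).card : ℝ) ≤
        (1 + δ / 2) * α * ((Fintype.piFinset (sec b hq C u)).card : ℝ) + α ^ L'' * (k : ℝ) ^ n := by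
    intro u
    have hpos1 : 0 ≤ α ^ L'' * (k : ℝ) ^ n := by positivity
    have hpos2 : 0 ≤ (1 + δ / 2) * α * ((Fintype.piFinset (sec b hq C u)).card : ℝ) := by positivity
    rcases (Fintype.piFinset (sec b hq C u)).eq_empty_or_nonempty with h0 | h0
    · rw [h0, inter_empty, card_empty]
      simp only [Nat.cast_zero, mul_zero, zero_add]
      exact hpos1
    · have hcard0 : (0 : ℝ) < ((Fintype.piFinset (sec b hq C u)).card : ℝ) := by
        exact_mod_cast h0.card_pos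
      have hle : ((A ∩ Fintype.piFinset (sec b hq C u)).card : ℝ) ≤
          ((Fintype.piFinset (sec b hq C u)).card : ℝ) := by
        exact_mod_cast card_le_card inter_subset_right
      by_cases h1 : α ^ L'' ≤ meas (Fintype.piFinset (sec b hq C u))
      · have h2 := hcon _ h0 h1
        rw [div_lt_iff₀ hcard0] at h2
        linarith
      · push Not at h1
        unfold meas at h1
        rw [div_lt_iff₀ (by positivity)] at h1
        linarith
  -- sum over the sections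
  have hsum1 : (∑ u : Fin n → Fin q, ((Fintype.piFinset (sec b hq C u)).card : ℝ)) ≤ c := by
    have := sum_sec_le b hq C
    rw [hc]
    exact_mod_cast this
  have hsum2 : ((pull b A ∩ Fintype.piFinset C).card : ℝ) ≤
      ∑ u : Fin n → Fin q, ((A ∩ Fintype.piFinset (sec b hq C u)).card : ℝ)
        + (T : ℝ) ^ n * ρ := by
    have h1 := card_inter_le b hq C A
    have h2 : k ^ n * q ^ n ≤ T ^ n := by
      rw [← mul_pow]
      exact Nat.pow_le_pow_left (Nat.mul_div_le T k) n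
    have h3 : ((T ^ n - k ^ n * q ^ n : ℕ) : ℝ) ≤ (T : ℝ) ^ n * ρ := by
      rw [Nat.cast_sub h2]
      push_cast
      rw [← mul_pow]
      linarith
    have h4 : ((pull b A ∩ Fintype.piFinset C).card : ℝ) ≤
        ((∑ u : Fin n → Fin q, (A ∩ Fintype.piFinset (sec b hq C u)).card
        + (T ^ n - k ^ n * q ^ n) : ℕ) : ℝ) := by exact_mod_cast h1
    refine h4.trans ?_
    rw [Nat.cast_add, Nat.cast_sum]
    linarith
  have hsum3 : ∑ u : Fin n → Fin q, ((A ∩ Fintype.piFinset (sec b hq C u)).card : ℝ) ≤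
      (1 + δ / 2) * α * c + (T : ℝ) ^ n * α ^ L'' := by
    calc ∑ u : Fin n → Fin q, ((A ∩ Fintype.piFinset (sec b hq C u)).card : ℝ)
        ≤ ∑ u : Fin n → Fin q, ((1 + δ / 2) * α * ((Fintype.piFinset (sec b hq C u)).card : ℝ)
            + α ^ L'' * (k : ℝ) ^ n) := sum_le_sum fun u _ => hsec u
      _ = (1 + δ / 2) * α * (∑ u : Fin n → Fin q, ((Fintype.piFinset (sec b hq C u)).card : ℝ))
            + (q : ℝ) ^ n * (α ^ L'' * (k : ℝ) ^ n) := by
          rw [sum_add_distrib, ← mul_sum, sum_const, card_univ, Fintype.card_fun, Fintype.card_fin,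
            Fintype.card_fin, nsmul_eq_mul]
          push_cast
          ring
      _ ≤ (1 + δ / 2) * α * c + (T : ℝ) ^ n * α ^ L'' := by
          refine add_le_add (mul_le_mul_of_nonneg_left hsum1 (by positivity)) ?_
          have h1 : (q : ℝ) ^ n * (α ^ L'' * (k : ℝ) ^ n) = (k * q : ℝ) ^ n * α ^ L'' := by
            rw [mul_pow]; ring
          rw [h1]
          exact mul_le_mul_of_nonneg_right (pow_le_pow_left₀ (by positivity) hkqT n)
            (by positivity)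
  have hfin : (1 + δ) * ((1 - ρ) * α) * c ≤
      (1 + δ / 2) * α * c + (T : ℝ) ^ n * α ^ L'' + (T : ℝ) ^ n * ρ := by
    have h1 : (1 + δ) * ((1 - ρ) * α) * c ≤ (1 + δ) * meas (pull b A) * c :=
      mul_le_mul_of_nonneg_right (mul_le_mul_of_nonneg_left hβ (by positivity)) (by positivity)
    linarith
  have hc0 : 0 < c := lt_of_lt_of_le (by positivity) hC
  have h1 : (1 + δ) * (1 - ρ) ≥ 1 + 3 * δ / 4 := by
    have h2 : (1 + δ) * (1 - ρ) ≥ (1 + δ) * (1 - δ / 8) :=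
      mul_le_mul_of_nonneg_left (by linarith) (by positivity)
    have h3 : (1 + δ) * (1 - δ / 8) = 1 + 3 * δ / 4 + δ * (1 - δ) / 8 := by ring
    have h4 : 0 ≤ δ * (1 - δ) / 8 := by
      have : 0 ≤ 1 - δ := by linarith
      positivity
    linarith
  have h2 : (1 + 3 * δ / 4) * (α * c) ≤ (1 + δ) * ((1 - ρ) * α) * c := by
    calc (1 + 3 * δ / 4) * (α * c) ≤ ((1 + δ) * (1 - ρ)) * (α * c) :=
          mul_le_mul_of_nonneg_right h1 (by positivity)
      _ = _ := by ring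
  have h3 : δ / 4 * (α * c) ≤ (T : ℝ) ^ n * (α ^ L'' + ρ) := by
    have : (1 + 3 * δ / 4) * (α * c) = (1 + δ / 2) * α * c + δ / 4 * (α * c) := by ring
    linarith
  have h4 : δ / 4 * (α * ((T : ℝ) ^ n * α ^ (2 * L'))) ≤ δ / 4 * (α * c) :=
    mul_le_mul_of_nonneg_left (mul_le_mul_of_nonneg_left hC hα0.le) (by positivity)
  have h5 : α * ((T : ℝ) ^ n * α ^ (2 * L')) = (T : ℝ) ^ n * α ^ (1 + 2 * L') := by
    rw [Real.rpow_add hα0, Real.rpow_one]
    ring
  rw [h5] at h4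
  have h6 : α ^ L'' + ρ ≤ 3 * δ / 16 * α ^ (1 + 2 * L') := by
    calc α ^ L'' + ρ ≤ δ / 16 * α ^ (1 + 2 * L') + δ / 8 * α ^ (1 + 2 * L') := by linarith
      _ = _ := by ring
  have hX : 0 < (T : ℝ) ^ n * α ^ (1 + 2 * L') := by positivity
  have h7 : (T : ℝ) ^ n * (α ^ L'' + ρ) ≤ 3 * δ / 16 * ((T : ℝ) ^ n * α ^ (1 + 2 * L')) := by
    calc (T : ℝ) ^ n * (α ^ L'' + ρ) ≤ (T : ℝ) ^ n * (3 * δ / 16 * α ^ (1 + 2 * L')) :=
          mul_le_mul_of_nonneg_left h6 (by positivity)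
      _ = _ := by ring
  have h8 : δ / 4 * ((T : ℝ) ^ n * α ^ (1 + 2 * L')) ≤
      3 * δ / 16 * ((T : ℝ) ^ n * α ^ (1 + 2 * L')) := by linarith
  have h9 : δ / 4 ≤ 3 * δ / 16 := le_of_mul_le_mul_right h8 hX
  linarith

/-- the boundary of the blow-up in the cube -/
theorem boundary_blow {m : ℕ} (hk : 0 < k) (hn : 0 < n)
    (A : Finset (Fin n → Fin k)) (b : Fin n → Bl k (2 ^ m))
    (hQ : ∀ i a, (b i).len a ≤ 2 ^ m / k + k)
    (hρ : (n : ℝ) * (k ^ 2 : ℝ) / ((2 : ℝ) ^ m) ≤ 1 / 2) :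
    ((edgeBoundary (cube (pull b A))).card : ℝ) * (k : ℝ) ^ n
      ≤ 2 * ((2 : ℝ) ^ m) ^ n * (k * (edgeBoundary A).card) := by
  obtain ⟨n', rfl⟩ := Nat.exists_eq_succ_of_ne_zero hn.ne'
  have hk' : (0 : ℝ) < k := Nat.cast_pos.2 hk
  have hT' : (0 : ℝ) < (2 : ℝ) ^ m := by positivity
  set T : ℝ := (2 : ℝ) ^ m with hT
  set Q : ℕ := 2 ^ m / k + k with hQd
  have h1 : (edgeBoundary (cube (pull b A))).card ≤ 2 ^ m * (Q ^ n' * (edgeBoundary A).card) := by
    refine (card_boundary_cube_le (pull b A)).trans (Nat.mul_le_mul_left _ ?_)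
    calc ∑ i, (cut (pull b A) i).card ≤ ∑ i, Q ^ (n' + 1 - 1) * (cut A i).card :=
          sum_le_sum fun i _ => card_cut_pull_le b hQ A i
      _ = Q ^ n' * ∑ i, (cut A i).card := by rw [mul_sum, Nat.add_sub_cancel]
      _ ≤ Q ^ n' * (edgeBoundary A).card := Nat.mul_le_mul_left _ (sum_cut_le A)
  have h2 : ((edgeBoundary (cube (pull b A))).card : ℝ)
      ≤ T * ((Q : ℝ) ^ n' * (edgeBoundary A).card) := by
    rw [hT]
    exact_mod_cast h1
  have h3 : (k : ℝ) * Q ≤ T + k ^ 2 := by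
    have h4 : k * (2 ^ m / k) ≤ 2 ^ m := Nat.mul_div_le _ _
    have h5 : k * Q ≤ 2 ^ m + k ^ 2 := by
      rw [hQd, mul_add, sq]
      omega
    rw [hT]
    exact_mod_cast h5
  have h4 : ((k : ℝ) * Q) ^ n' ≤ 2 * T ^ n' := by
    refine (pow_le_pow_left₀ (by positivity) h3 n').trans ?_
    refine pow_near' hT' (by positivity) (le_trans ?_ hρ)
    refine div_le_div_of_nonneg_right ?_ hT'.le
    refine mul_le_mul_of_nonneg_right ?_ (by positivity)
    push_cast
    linarith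
  calc ((edgeBoundary (cube (pull b A))).card : ℝ) * (k : ℝ) ^ (n' + 1)
      ≤ (T * ((Q : ℝ) ^ n' * (edgeBoundary A).card)) * (k : ℝ) ^ (n' + 1) :=
        mul_le_mul_of_nonneg_right h2 (by positivity)
    _ = ((k : ℝ) * Q) ^ n' * (T * (k * (edgeBoundary A).card)) := by
        rw [mul_pow, pow_succ]
        ring
    _ ≤ (2 * T ^ n') * (T * (k * (edgeBoundary A).card)) :=
        mul_le_mul_of_nonneg_right h4 (by positivity)
    _ = 2 * T ^ (n' + 1) * (k * (edgeBoundary A).card) := by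
        rw [pow_succ]
        ring

theorem meas_cube {m : ℕ} (B : Finset (Fin n → Fin (2 ^ m))) : meas (cube B) = meas B := by
  unfold meas
  rw [card_cube]
  congr 1
  push_cast
  rw [← pow_mul, mul_comm]

/-- the main regime -/
theorem main_regime (H : DensityIncrement {2}) {L : ℝ} (hL : 1 ≤ L) :
    ∃ L'' : ℝ, 0 < L'' ∧ ∃ δ : ℝ, 0 < δ ∧ ∀ k n : ℕ, 0 < k → 0 < n →
      ∀ A : Finset (Fin n → Fin k), A.Nonempty → meas A ≤ 1 / 2 →
      Real.exp (-(n : ℝ)) ≤ meas A →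
      ((edgeBoundary A).card : ℝ) ≤ L * mBound A →
      ∃ S : Fin n → Finset (Fin k), (Fintype.piFinset S).Nonempty ∧
        meas A ^ L'' ≤ meas (Fintype.piFinset S) ∧
        (1 + δ) * meas A ≤
          ((A ∩ Fintype.piFinset S).card : ℝ) / ((Fintype.piFinset S).card : ℝ) := by
  obtain ⟨L', hL', δ₀, hδ₀, H⟩ := H (56 * L) (by linarith)
  set δ : ℝ := min δ₀ 1 with hδ
  have hδ0 : 0 < δ := by rw [hδ]; positivity
  have hδ1 : δ ≤ 1 := min_le_right _ _
  have hδδ : δ ≤ δ₀ := min_le_left _ _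
  have hlog2 : 0 < Real.log 2 := Real.log_pos (by norm_num)
  have hlog8 : 0 ≤ Real.log (8 / δ) := Real.log_nonneg (by rw [le_div_iff₀ hδ0]; linarith)
  refine ⟨2 + 2 * L' + Real.log (8 / δ) / Real.log 2, by positivity, δ / 2, by positivity, ?_⟩
  intro k n hk hn A hne hα hα' hA
  have hk' : (0 : ℝ) < k := Nat.cast_pos.2 hk
  have hn' : (0 : ℝ) < n := Nat.cast_pos.2 hn
  have ha : (0 : ℝ) < A.card := by exact_mod_cast hne.card_pos
  have hα0 : 0 < meas A := by unfold meas; positivity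
  set α := meas A with hαd
  set l := Real.log (1 / α) with hl
  have hl1 : l ≤ n := by
    have h1 : Real.log (Real.exp (-(n : ℝ))) ≤ Real.log α := Real.log_le_log (Real.exp_pos _) hα'
    rw [Real.log_exp] at h1
    rw [hl, one_div, Real.log_inv]
    linarith
  have hl2 : 0.69 ≤ l := by
    have h1 : Real.log 2 ≤ l := by
      rw [hl]
      refine Real.log_le_log (by norm_num) ?_
      rw [le_div_iff₀ hα0]
      linarith
    have := Real.log_two_gt_d9
    linarith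
  have hl0 : 0 < l := by linarith
  -- choice of the blow-up factor
  set X : ℝ := max (2 * n * k ^ 2) (max (n * k / (δ / 8 * α ^ (1 + 2 * L')))
    (max (n * k / (δ / 8)) (max (2 * k) 2))) with hX
  obtain ⟨m, hm⟩ := pow_unbounded_of_one_lt X (by norm_num : (1 : ℝ) < 2)
  have hT0 : (0 : ℝ) < (2 : ℝ) ^ m := by positivity
  have hX1 : 2 * n * k ^ 2 ≤ (2 : ℝ) ^ m := (le_max_left _ _).trans hm.le
  have hX2 : n * k / (δ / 8 * α ^ (1 + 2 * L')) ≤ (2 : ℝ) ^ m :=
    ((le_max_left _ _).trans (le_max_right _ _)).trans hm.le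
  have hX3 : n * k / (δ / 8) ≤ (2 : ℝ) ^ m :=
    (((le_max_left _ _).trans (le_max_right _ _)).trans (le_max_right _ _)).trans hm.le
  have hX4 : 2 * (k : ℝ) ≤ (2 : ℝ) ^ m :=
    ((((le_max_left _ _).trans (le_max_right _ _)).trans (le_max_right _ _)).trans
      (le_max_right _ _)).trans hm.le
  have hX5 : (2 : ℝ) < (2 : ℝ) ^ m :=
    lt_of_le_of_lt ((((le_max_right _ _).trans (le_max_right _ _)).trans (le_max_right _ _)).trans
      (le_max_right _ _)) hm
  have hm0 : 0 < m := by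
    rcases Nat.eq_zero_or_pos m with h | h
    · rw [h, pow_zero] at hX5
      linarith
    · exact h
  have hkT : k ≤ 2 ^ m := by
    have : (k : ℝ) ≤ ((2 ^ m : ℕ) : ℝ) := by
      push_cast
      linarith
    exact_mod_cast this
  have hcast : (((2 ^ m : ℕ)) : ℝ) = (2 : ℝ) ^ m := by push_cast; rfl
  have hρ0 : (n : ℝ) * k ^ 2 / (2 : ℝ) ^ m ≤ 1 / 2 := by
    rw [div_le_iff₀ hT0]
    linarith
  have hρ1 : (n : ℝ) * k / ((2 ^ m : ℕ) : ℝ) ≤ δ / 8 * α ^ (1 + 2 * L') := by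
    rw [div_le_iff₀ (by positivity)] at hX2
    rw [hcast, div_le_iff₀ hT0]
    linarith
  have hρ2 : (n : ℝ) * k / ((2 ^ m : ℕ) : ℝ) ≤ δ / 8 := by
    rw [div_le_iff₀ (by positivity)] at hX3
    rw [hcast, div_le_iff₀ hT0]
    linarith
  obtain ⟨b, hb1, hb2, hb3⟩ := exists_blocks (n := n) hk hkT A
  set B := pull b A with hB
  -- the measure of the blow-up is at most `α` and at least `α / 2`
  have hβ1 : meas B ≤ α := by
    have h1 : (B.card : ℝ) * (k : ℝ) ^ n ≤ A.card * ((2 ^ m : ℕ) : ℝ) ^ n := by exact_mod_cast hb3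
    unfold meas at hαd ⊢
    rw [hαd, div_le_div_iff₀ (by positivity) (by positivity)]
    exact h1
  have hβ2 : α / 2 ≤ meas B := by
    have h1 : A.card * (2 ^ m / k) ^ n ≤ B.card := by
      rw [hB, card_pull]
      calc A.card * (2 ^ m / k) ^ n = ∑ _x ∈ A, ∏ _i : Fin n, (2 ^ m / k) := by
            rw [sum_const, prod_const, card_univ, Fintype.card_fin, smul_eq_mul]
        _ ≤ _ := sum_le_sum fun x _ => prod_le_prod' fun i _ => hb1 i (x i)
    have h2 : (A.card : ℝ) * ((2 ^ m / k : ℕ) : ℝ) ^ n ≤ B.card := by exact_mod_cast h1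
    have hkq : ((2 ^ m : ℕ) : ℝ) - k ≤ k * ((2 ^ m / k : ℕ) : ℝ) := by
      have h1 := Nat.div_add_mod (2 ^ m) k
      have h2 := Nat.mod_lt (2 ^ m) hk
      have h3 : 2 ^ m ≤ k * (2 ^ m / k) + k := by omega
      have h4 : ((2 ^ m : ℕ) : ℝ) ≤ k * ((2 ^ m / k : ℕ) : ℝ) + k := by exact_mod_cast h3
      linarith
    have hkT' : (k : ℝ) ≤ ((2 ^ m : ℕ) : ℝ) := by exact_mod_cast hkT
    have hT1 : (0 : ℝ) < ((2 ^ m : ℕ) : ℝ) := by rw [hcast]; exact hT0
    have hpow := (pow_near hT1 hkT' n).trans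
      (pow_le_pow_left₀ (by linarith) hkq n)
    have h3 : (((2 ^ m : ℕ)) : ℝ) ^ n * (1 / 2) ≤ (k * ((2 ^ m / k : ℕ) : ℝ)) ^ n := by
      refine le_trans (mul_le_mul_of_nonneg_left ?_ (by positivity)) hpow
      linarith
    unfold meas at hαd ⊢
    rw [hαd, le_div_iff₀ (by positivity)]
    calc (A.card : ℝ) / (k : ℝ) ^ n / 2 * ((2 ^ m : ℕ) : ℝ) ^ n
        = ((A.card : ℝ) / (k : ℝ) ^ n) * (((2 ^ m : ℕ) : ℝ) ^ n * (1 / 2)) := by ring
      _ ≤ ((A.card : ℝ) / (k : ℝ) ^ n) * (k * ((2 ^ m / k : ℕ) : ℝ)) ^ n :=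
          mul_le_mul_of_nonneg_left h3 (by positivity)
      _ = (A.card : ℝ) * ((2 ^ m / k : ℕ) : ℝ) ^ n := by
          rw [mul_pow]
          field_simp
      _ ≤ _ := h2
  have hβ0 : 0 < meas B := lt_of_lt_of_le (by positivity) hβ2
  have hBne : (cube B).Nonempty := by
    rw [← card_pos, card_cube, card_pos]
    by_contra h
    rw [not_nonempty_iff_eq_empty] at h
    unfold meas at hβ0
    rw [h, card_empty, Nat.cast_zero, zero_div] at hβ0
    exact lt_irrefl _ hβ0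
  -- the isoperimetric hypothesis in the cube
  have hiso : ((edgeBoundary (cube B)).card : ℝ) ≤ 56 * L * mBound (cube B) := by
    have h1 := boundary_blow hk hn A b hb2 hρ0
    have h2 := hA.trans (mul_le_mul_of_nonneg_left (mBound_upper hk A hne hl1 hl2)
      (by linarith))
    have h3 := mBound_lower (by norm_num : 0 < 2) (Nat.mul_pos hn hm0) (cube B) hBne
    rw [meas_cube] at h3
    have h4 : l ≤ Real.log (1 / meas B) := by
      rw [hl]
      refine Real.log_le_log (by positivity) ?_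
      exact one_div_le_one_div_of_le hβ0 hβ1
    have h5 : ((2 : ℝ) ^ m) ^ n * (α / 4) * l ≤ mBound (cube B) := by
      refine le_trans ?_ h3
      refine mul_le_mul ?_ h4 hl0.le (by positivity)
      have h6 : ((cube B).card : ℝ) = meas B * ((2 : ℝ) ^ m) ^ n := by
        rw [card_cube]
        unfold meas
        rw [hcast]
        field_simp
      rw [h6]
      push_cast
      have h7 : 0 < ((2 : ℝ) ^ m) ^ n := by positivity
      nlinarith
    have h6 : ((edgeBoundary (cube B)).card : ℝ) * (k : ℝ) ^ n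
        ≤ (14 * L * l * α * ((2 : ℝ) ^ m) ^ n) * (k : ℝ) ^ n := by
      refine h1.trans ?_
      calc 2 * ((2 : ℝ) ^ m) ^ n * (k * (edgeBoundary A).card)
          ≤ 2 * ((2 : ℝ) ^ m) ^ n * (k * (L * (7 * l * ((A.card : ℝ) / k)))) := by
            refine mul_le_mul_of_nonneg_left (mul_le_mul_of_nonneg_left h2 hk'.le) (by positivity)
        _ = (14 * L * l * ((A.card : ℝ) / (k : ℝ) ^ n) * ((2 : ℝ) ^ m) ^ n) * (k : ℝ) ^ n := by
            field_simp
            ring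
    have h7 := le_of_mul_le_mul_right h6 (by positivity)
    refine h7.trans ?_
    calc 14 * L * l * α * ((2 : ℝ) ^ m) ^ n = 56 * L * (((2 : ℝ) ^ m) ^ n * (α / 4) * l) := by ring
      _ ≤ 56 * L * mBound (cube B) := mul_le_mul_of_nonneg_left h5 (by linarith)
  have hmeas : meas (cube B) ≤ 1 / 2 := by
    rw [meas_cube]
    linarith
  obtain ⟨S, hS1, hS2, hS3⟩ := H 2 rfl (n * m) (by norm_num) (Nat.mul_pos hn hm0) (cube B)
    hmeas hiso
  rw [← cube_fac S] at hS1 hS2 hS3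
  rw [meas_cube, meas_cube] at hS2
  rw [meas_cube, ← cube_inter, card_cube, card_cube] at hS3
  have hC0 : (0 : ℝ) < ((Fintype.piFinset (fac S)).card : ℝ) := by
    rw [← card_pos, card_cube] at hS1
    exact_mod_cast hS1
  rw [le_div_iff₀ hC0] at hS3
  refine exists_section hk hkT A hne b hb1 (fac S) hδ0 hδ1 (L' := L') ?_ hρ1 hρ2 ?_ ?_
  · -- measure of the product set
    have h1 : α ^ (2 * L') ≤ meas B ^ L' := by
      rw [Real.rpow_mul hα0.le]
      refine Real.rpow_le_rpow (by positivity) ?_ hL'.le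
      refine le_trans ?_ hβ2
      have h2 : α ^ (2 : ℝ) = α * α := by
        rw [Real.rpow_two]
        ring
      rw [h2]
      nlinarith
    have h2 := h1.trans hS2
    unfold meas at h2
    rw [le_div_iff₀ (by positivity)] at h2
    rw [mul_comm]
    exact h2
  · -- the exponent
    have e1 : 2 + 2 * L' + Real.log (8 / δ) / Real.log 2
        = (1 + Real.log (8 / δ) / Real.log 2) + (1 + 2 * L') := by ring
    rw [e1, Real.rpow_add hα0]
    refine mul_le_mul_of_nonneg_right ?_ (by positivity)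
    have h1 : α ^ (1 + Real.log (8 / δ) / Real.log 2)
        ≤ (1 / 2 : ℝ) ^ (1 + Real.log (8 / δ) / Real.log 2) :=
      Real.rpow_le_rpow hα0.le hα (by positivity)
    refine h1.trans (le_of_eq ?_)
    rw [Real.rpow_add (by norm_num), Real.rpow_one, Real.rpow_def_of_pos (by norm_num)]
    have h2 : Real.log (1 / 2) * (Real.log (8 / δ) / Real.log 2) = -Real.log (8 / δ) := by
      rw [one_div, Real.log_inv]
      field_simp
    rw [h2, Real.exp_neg, Real.exp_log (by positivity), inv_div]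
    ring
  · refine le_trans ?_ hS3
    refine mul_le_mul_of_nonneg_right (mul_le_mul_of_nonneg_right (by linarith) hβ0.le) hC0.le

end Pool.Agent.Grid
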